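import Mathlib
import Pool.Agent.Y215.SK.Ht1
import Pool.Agent.H58W.HtNorth
import Pool.Agent.N695.CY.Coef

set_option autoImplicit false

/-!
# Vanishing sums with gaps: an algebraic base

If `∑ a_i b ^ e_i = 0` and no exponent lies strictly between `s` and `s + L` then the terms with
`e_i ≤ s` have the sum zero, provided that `L h(b)` is larger than a bound which depends only on the
heights of the coefficients.
-/

namespace Pool.Agent.J6H96.SS

open Finset Pool.Agent.Helper259.AbsHt Pool.Agent.Y215.SK

/-- the height of a product -/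
theorem height_mul_le' {ι κ : Type} [Fintype ι] [Fintype κ] (x : ι → Qbar) (y : κ → Qbar)
    {τ : Type} [Finite τ] (f : τ → ι) (g : τ → κ) :
    absLogHeight (fun t => x (f t) * y (g t)) ≤ absLogHeight x + absLogHeight y := by
  by_cases hx : x = 0
  · have : (fun t => x (f t) * y (g t)) = 0 := by
      funext t
      rw [hx, Pi.zero_apply, zero_mul, Pi.zero_apply]
    rw [this, absLogHeight_zero]
    exact add_nonneg (absLogHeight_nonneg _) (absLogHeight_nonneg _)
  by_cases hy : y = 0
  · have : (fun t => x (f t) * y (g t)) = 0 := by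
      funext t
      rw [hy, Pi.zero_apply, mul_zero, Pi.zero_apply]
    rw [this, absLogHeight_zero]
    exact add_nonneg (absLogHeight_nonneg _) (absLogHeight_nonneg _)
  rw [← absLogHeight_segre hx hy]
  exact absLogHeight_comp_le (fun t => (f t, g t)) (fun a : ι × κ => x a.1 * y a.2)

/-- the height of a vector of powers -/
theorem height_powers {τ : Type} [Finite τ] (b : Qbar) (M : ℕ) (E : τ → ℕ) (hE : ∀ t, E t ≤ M) :
    absLogHeight (fun t => b ^ E t) ≤ M * h1 b := by
  classical
  have h2 := absLogHeight_veronese M ![b, 1]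
  unfold h1
  rw [← h2]
  have e : (fun t => b ^ E t) = (fun I : Fin M → Fin 2 => ∏ a, (![b, 1] : Fin 2 → Qbar) (I a)) ∘
      (fun t a => if (a : ℕ) < E t then 0 else 1) := by
    funext t
    show b ^ E t = ∏ a : Fin M, (![b, 1] : Fin 2 → Qbar) (if (a : ℕ) < E t then 0 else 1)
    have h3 : ∀ a : Fin M, (![b, 1] : Fin 2 → Qbar) (if (a : ℕ) < E t then 0 else 1) =
        if (a : ℕ) < E t then b else 1 := by
      intro a
      split_ifs <;> simp
    simp only [h3]
    rw [Finset.prod_ite, Finset.prod_const_one, mul_one, Finset.prod_const]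
    congr 1
    have h4 : (univ.filter fun a : Fin M => (a : ℕ) < E t).card = E t := by
      rw [Fin.card_filter_val_lt]
      exact min_eq_right (hE t)
    exact h4.symm
  rw [e]
  exact absLogHeight_comp_le _ _

theorem h1_tors {z : Qbar} {d : ℕ} (hd : 0 < d) (hz : z ^ d = 1) : h1 z = 0 := by
  have h2 := h1_pow z d
  rw [hz, h1_one] at h2
  have h3 : (0 : ℝ) < d := by exact_mod_cast hd
  rcases mul_eq_zero.1 h2.symm with h | h
  · exact absurd h h3.ne'
  · exact h

/-- **The gap principle.** -/
theorem gap_height {ι : Type} [Fintype ι] [DecidableEq ι] (a : ι → Qbar) (b : Qbar) (hb : b ≠ 0)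
    (e : ι → ℤ) (s : ℤ) (L : ℕ) (hgap : ∀ i, e i ≤ s ∨ s + L ≤ e i)
    (hsum : ∑ i, a i * b ^ e i = 0) (hu : ∑ i with e i ≤ s, a i * b ^ e i ≠ 0) :
    (L : ℝ) * h1 b ≤ Real.log (2 * Fintype.card ι) + absLogHeight a +
      absLogHeight ![(1 : Qbar), -1, 0] := by
  set u : Qbar := ∑ i with e i ≤ s, a i * b ^ (e i - s) with hudef
  set v : Qbar := ∑ i with ¬ e i ≤ s, a i * b ^ (e i - s - L) with hvdef
  have hbz : ∀ n : ℤ, b ^ n ≠ 0 := fun n => zpow_ne_zero n hb
  have hu1 : ∑ i with e i ≤ s, a i * b ^ e i = b ^ s * u := by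
    rw [hudef, Finset.mul_sum]
    refine Finset.sum_congr rfl fun i _ => ?_
    have : b ^ e i = b ^ s * b ^ (e i - s) := by rw [← zpow_add₀ hb]; congr 1; ring
    rw [this]; ring
  have hv1 : ∑ i with ¬ e i ≤ s, a i * b ^ e i = b ^ (s + L) * v := by
    rw [hvdef, Finset.mul_sum]
    refine Finset.sum_congr rfl fun i _ => ?_
    have : b ^ e i = b ^ (s + L) * b ^ (e i - s - L) := by
      rw [← zpow_add₀ hb]; congr 1; ring
    rw [this]; ring
  have huv : u + b ^ L * v = 0 := by
    have h1 := Finset.sum_filter_add_sum_filter_not univ (fun i => e i ≤ s)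
      (fun i => a i * b ^ e i)
    rw [hsum, hu1, hv1, zpow_add₀ hb, zpow_natCast, mul_assoc, ← mul_add] at h1
    exact (mul_eq_zero.1 h1).resolve_left (hbz s)
  have hu0 : u ≠ 0 := by
    intro h
    apply hu
    rw [hu1, h, mul_zero]
  have hv0 : v ≠ 0 := by
    intro h
    rw [h, mul_zero, add_zero] at huv
    exact hu0 huv
  -- a bound for the exponents
  obtain ⟨M, hM⟩ : ∃ M : ℕ, ∀ i, (e i - s).natAbs + L ≤ M :=
    ⟨∑ i, ((e i - s).natAbs + L), fun i =>
      Finset.single_le_sum (f := fun i => (e i - s).natAbs + L) (fun _ _ => Nat.zero_le _)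
        (Finset.mem_univ i)⟩
  -- exponents of the monomials
  let E : Fin 2 × ι → ℕ := fun p =>
    if e p.2 ≤ s then (if p.1 = 0 then (M + (e p.2 - s)).toNat else (M + (e p.2 - s) - L).toNat)
    else (if p.1 = 0 then (e p.2 - s).toNat else (e p.2 - s - L).toNat)
  have hE : ∀ p, E p ≤ M := by
    rintro ⟨q, i⟩
    have h1 := hM i
    have h2 := hgap i
    simp only [E]
    split_ifs <;> omega
  let x : Fin 2 × ι → Qbar := fun p => b ^ E p
  let A : (Fin 2 × Fin 2) × (Fin 2 × ι) → Qbar := fun p => a p.2.2 *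
    (![(1 : Qbar), -1, 0] : Fin 3 → Qbar)
      (if e p.2.2 ≤ s then
        (if p.1 = (0, 1) ∧ p.2.1 = 0 then 0 else if p.1 = (1, 1) ∧ p.2.1 = 1 then 1 else 2)
      else (if p.1 = (0, 0) ∧ p.2.1 = 0 then 1 else if p.1 = (1, 0) ∧ p.2.1 = 1 then 0 else 2))
  have hA : absLogHeight A ≤ absLogHeight a + absLogHeight ![(1 : Qbar), -1, 0] :=
    height_mul_le' a ![(1 : Qbar), -1, 0] (fun p : (Fin 2 × Fin 2) × (Fin 2 × ι) => p.2.2) _
  have hlin := absLogHeight_linear A x
  have hx : absLogHeight x ≤ M * h1 b := height_powers b M E hE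
  -- the four values
  have hpow : ∀ (m : ℤ), 0 ≤ m → b ^ m.toNat = b ^ m := by
    intro m hm
    rw [← zpow_natCast, Int.toNat_of_nonneg hm]
  have hval : (fun p : Fin 2 × Fin 2 => ∑ q : Fin 2 × ι, A (p, q) * x q) =
      fun p : Fin 2 × Fin 2 => (![u, v] : Fin 2 → Qbar) p.1 * (![(1 : Qbar), b ^ M]) p.2 := by
    have hsplit : ∀ p : Fin 2 × Fin 2, ∑ q : Fin 2 × ι, A (p, q) * x q =
        ∑ i with e i ≤ s, (A (p, (0, i)) * x (0, i) + A (p, (1, i)) * x (1, i)) +
        ∑ i with ¬ e i ≤ s, (A (p, (0, i)) * x (0, i) + A (p, (1, i)) * x (1, i)) := by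
      intro p
      rw [Finset.sum_filter_add_sum_filter_not, Fintype.sum_prod_type, Fin.sum_univ_two,
        ← Finset.sum_add_distrib]
    funext p
    rw [hsplit]
    obtain ⟨p1, p2⟩ := p
    have hzero : ∀ (F : Finset ι) (f : ι → Qbar), (∀ i ∈ F, f i = 0) → ∑ i ∈ F, f i = 0 :=
      fun F f h => Finset.sum_eq_zero h
    fin_cases p1 <;> fin_cases p2
    · -- `u`
      have h1 : ∑ i with e i ≤ s, (A ((0, 0), (0, i)) * x (0, i) + A ((0, 0), (1, i)) * x (1, i))
          = 0 := by
        refine Finset.sum_eq_zero fun i hi => ?_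
        have hi' := (Finset.mem_filter.1 hi).2
        simp [A, hi']
      have h2 : ∑ i with ¬ e i ≤ s, (A ((0, 0), (0, i)) * x (0, i) + A ((0, 0), (1, i)) * x (1, i))
          = -(b ^ L * v) := by
        rw [hvdef, Finset.mul_sum, ← Finset.sum_neg_distrib]
        refine Finset.sum_congr rfl fun i hi => ?_
        have hi' := (Finset.mem_filter.1 hi).2
        have hg : s + L ≤ e i := (hgap i).resolve_left hi'
        have hx0 : x (0, i) = b ^ (e i - s) := by
          show b ^ E (0, i) = _
          simp only [E, if_neg hi', if_true]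
          exact hpow _ (by omega)
        rw [hx0]
        have h3 : b ^ (e i - s) = b ^ L * b ^ (e i - s - L) := by
          rw [← zpow_natCast, ← zpow_add₀ hb]; congr 1; ring
        rw [h3]
        simp [A, hi']
        ring
      show _ = u * 1
      rw [mul_one]
      refine (congrArg₂ (· + ·) h1 h2).trans ?_
      rw [zero_add]
      linear_combination -huv
    · -- `b ^ M u`
      have h1 : ∑ i with e i ≤ s, (A ((0, 1), (0, i)) * x (0, i) + A ((0, 1), (1, i)) * x (1, i))
          = b ^ M * u := by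
        rw [hudef, Finset.mul_sum]
        refine Finset.sum_congr rfl fun i hi => ?_
        have hi' := (Finset.mem_filter.1 hi).2
        have hM' := hM i
        have hx0 : x (0, i) = b ^ M * b ^ (e i - s) := by
          show b ^ E (0, i) = _
          simp only [E, if_pos hi', if_true]
          rw [hpow _ (by omega), zpow_add₀ hb, zpow_natCast]
        rw [hx0]
        simp [A, hi']
        ring
      have h2 : ∑ i with ¬ e i ≤ s, (A ((0, 1), (0, i)) * x (0, i) + A ((0, 1), (1, i)) * x (1, i))
          = 0 := by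
        refine Finset.sum_eq_zero fun i hi => ?_
        have hi' := (Finset.mem_filter.1 hi).2
        simp [A, hi']
      show _ = u * b ^ M
      refine (congrArg₂ (· + ·) h1 h2).trans ?_
      rw [add_zero, mul_comm]
    · -- `v`
      have h1 : ∑ i with e i ≤ s, (A ((1, 0), (0, i)) * x (0, i) + A ((1, 0), (1, i)) * x (1, i))
          = 0 := by
        refine Finset.sum_eq_zero fun i hi => ?_
        have hi' := (Finset.mem_filter.1 hi).2
        simp [A, hi']
      have h2 : ∑ i with ¬ e i ≤ s, (A ((1, 0), (0, i)) * x (0, i) + A ((1, 0), (1, i)) * x (1, i))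
          = v := by
        rw [hvdef]
        refine Finset.sum_congr rfl fun i hi => ?_
        have hi' := (Finset.mem_filter.1 hi).2
        have hg : s + L ≤ e i := (hgap i).resolve_left hi'
        have hx0 : x (1, i) = b ^ (e i - s - L) := by
          show b ^ E (1, i) = _
          simp only [E, if_neg hi']
          rw [if_neg (by decide)]
          exact hpow _ (by omega)
        rw [hx0]
        simp [A, hi']
      show _ = v * 1
      rw [mul_one]
      refine (congrArg₂ (· + ·) h1 h2).trans ?_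
      rw [zero_add]
    · -- `b ^ M v`
      have h1 : ∑ i with e i ≤ s, (A ((1, 1), (0, i)) * x (0, i) + A ((1, 1), (1, i)) * x (1, i))
          = -(b ^ ((M : ℤ) - L) * u) := by
        rw [hudef, Finset.mul_sum, ← Finset.sum_neg_distrib]
        refine Finset.sum_congr rfl fun i hi => ?_
        have hi' := (Finset.mem_filter.1 hi).2
        have hM' := hM i
        have hx0 : x (1, i) = b ^ ((M : ℤ) - L) * b ^ (e i - s) := by
          show b ^ E (1, i) = _
          simp only [E, if_pos hi']
          rw [if_neg (by decide), hpow _ (by omega), ← zpow_add₀ hb]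
          congr 1
          ring
        rw [hx0]
        simp [A, hi']
        ring
      have h2 : ∑ i with ¬ e i ≤ s, (A ((1, 1), (0, i)) * x (0, i) + A ((1, 1), (1, i)) * x (1, i))
          = 0 := by
        refine Finset.sum_eq_zero fun i hi => ?_
        have hi' := (Finset.mem_filter.1 hi).2
        simp [A, hi']
      show _ = v * b ^ M
      refine (congrArg₂ (· + ·) h1 h2).trans ?_
      have h3 : b ^ M = b ^ ((M : ℤ) - L) * b ^ L := by
        rw [← zpow_natCast b M, ← zpow_natCast b L, ← zpow_add₀ hb]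
        congr 1
        ring
      rw [add_zero, h3]
      linear_combination (-(b ^ ((M : ℤ) - L))) * huv
  have hsegre : absLogHeight (fun p : Fin 2 × Fin 2 =>
      (![u, v] : Fin 2 → Qbar) p.1 * (![(1 : Qbar), b ^ M]) p.2) =
      absLogHeight ![u, v] + absLogHeight ![(1 : Qbar), b ^ M] :=
    absLogHeight_segre (fun h => hu0 (congrFun h 0)) (fun h => one_ne_zero (congrFun h 0))
  have hswap : absLogHeight ![(1 : Qbar), b ^ M] = M * h1 b := by
    rw [← h1_pow]
    unfold h1
    apply le_antisymm
    · have := absLogHeight_comp_le ![(1 : Fin 2), 0] ![b ^ M, (1 : Qbar)]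
      have e : ![b ^ M, (1 : Qbar)] ∘ ![(1 : Fin 2), 0] = ![(1 : Qbar), b ^ M] := by
        funext j; fin_cases j <;> rfl
      rwa [e] at this
    · have := absLogHeight_comp_le ![(1 : Fin 2), 0] ![(1 : Qbar), b ^ M]
      have e : ![(1 : Qbar), b ^ M] ∘ ![(1 : Fin 2), 0] = ![b ^ M, (1 : Qbar)] := by
        funext j; fin_cases j <;> rfl
      rwa [e] at this
  have hLb : (L : ℝ) * h1 b ≤ absLogHeight ![u, v] := by
    rw [← h1_pow]
    have h2 : b ^ L = -(u / v) := by
      rw [eq_neg_iff_add_eq_zero, ← mul_left_inj' hv0, zero_mul, add_mul, div_mul_cancel₀ _ hv0]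
      linear_combination huv
    rw [h2, h1_neg]
    exact h1_ratio_le ![u, v] 0 1 hv0
  rw [hval, hsegre, hswap] at hlin
  have hcard : (Nat.card (Fin 2 × ι) : ℝ) = 2 * Fintype.card ι := by
    rw [Nat.card_eq_fintype_card, Fintype.card_prod, Fintype.card_fin]
    push_cast
    ring
  rw [hcard] at hlin
  linarith

end Pool.Agent.J6H96.SS
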