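import Mathlib
import Pool.Agent.J6H96.SS.Gap

set_option autoImplicit false

/-!
# Vanishing sums `∑ c_i b ^ e_i x_i` for all algebraic bases `b` of bounded degree

The coefficients `c_i` are fixed complex numbers, the `x_i` are arbitrary roots of unity and `b` is
any algebraic number of degree at most `D` which is not zero and not a root of unity.
-/

namespace Pool.Agent.J6H96.SS

open Finset Pool.Agent.Helper259.AbsHt Pool.Agent.Y215.SK

section gap
variable {ι : Type} [Fintype ι] [DecidableEq ι]

theorem gap_qbar (c : ι → Qbar) : ∃ Λ : ℝ, ∀ (b : Qbar) (e : ι → ℤ) (x : ι → Qbar) (d : ℕ),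
    b ≠ 0 → 0 < d → (∀ i, x i ^ d = 1) → ∑ i, c i * b ^ e i * x i = 0 →
    ∀ (L : ℕ) (s : ℤ), Λ < L * h1 b → (∀ i, e i ≤ s ∨ s + L ≤ e i) →
    ∑ i with e i ≤ s, c i * b ^ e i * x i = 0 := by
  refine ⟨Real.log (2 * Fintype.card ι) + absLogHeight c + absLogHeight ![(1 : Qbar), -1, 0], ?_⟩
  intro b e x d hb hd hx hsum L s hL hgap
  by_contra hne
  have hx0 : absLogHeight x = 0 := by
    refine le_antisymm ((height_le_sum x).trans ?_) (absLogHeight_nonneg _)
    exact (Finset.sum_eq_zero fun i _ => h1_tors hd (hx i)).le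
  have ha : absLogHeight (fun i => c i * x i) ≤ absLogHeight c := by
    have h2 := height_mul_le' c x (fun i : ι => i) (fun i : ι => i)
    rw [hx0, add_zero] at h2
    exact h2
  have h3 := gap_height (fun i => c i * x i) b hb e s L hgap (by
    rw [← hsum]
    exact Finset.sum_congr rfl fun i _ => by ring) (by
    intro h
    apply hne
    rw [← h]
    exact Finset.sum_congr rfl fun i _ => by ring)
  linarith

/-- the gap principle for complex coefficients -/
theorem gap_complex (φ : Qbar →+* ℂ) (c : ι → ℂ) : ∃ Λ : ℝ, ∀ (b : Qbar) (e : ι → ℤ)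
    (x : ι → Qbar) (d : ℕ), b ≠ 0 → 0 < d → (∀ i, x i ^ d = 1) →
    ∑ i, c i * φ b ^ e i * φ (x i) = 0 →
    ∀ (L : ℕ) (s : ℤ), Λ < L * h1 b → (∀ i, e i ≤ s ∨ s + L ≤ e i) →
    ∑ i with e i ≤ s, c i * φ b ^ e i * φ (x i) = 0 := by
  classical
  let _ : Algebra Qbar ℂ := φ.toAlgebra
  let v := Module.Basis.ofVectorSpace Qbar ℂ
  choose Λ hΛ using fun h => gap_qbar (fun i => v.repr (c i) h)
  set H : Finset _ := univ.biUnion fun i => (v.repr (c i)).support with hH
  refine ⟨∑ h ∈ H, |Λ h|, ?_⟩
  intro b e x d hb hd hx hsum L s hL hgap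
  have hconv : ∀ A : Finset ι, ∑ i ∈ A, c i * φ b ^ e i * φ (x i) =
      ∑ i ∈ A, (b ^ e i * x i) • c i := by
    intro A
    refine Finset.sum_congr rfl fun i _ => ?_
    rw [Algebra.smul_def]
    show _ = φ (b ^ e i * x i) * c i
    rw [map_mul, map_zpow₀]
    ring
  have hcoord : ∀ (A : Finset ι) h, v.repr (∑ i ∈ A, (b ^ e i * x i) • c i) h =
      ∑ i ∈ A, v.repr (c i) h * b ^ e i * x i := by
    intro A h
    rw [map_sum, Finsupp.finsetSum_apply]
    refine Finset.sum_congr rfl fun i _ => ?_
    rw [map_smul, Finsupp.smul_apply, smul_eq_mul]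
    ring
  rw [hconv]
  apply v.repr.injective
  rw [map_zero]
  ext h
  rw [Finsupp.zero_apply, hcoord]
  by_cases hh : h ∈ H
  · refine hΛ h b e x d hb hd hx ?_ L s (lt_of_le_of_lt ?_ hL) hgap
    · have h3 := hcoord univ h
      rw [← hconv, hsum, map_zero, Finsupp.zero_apply] at h3
      exact h3.symm
    · exact (le_abs_self _).trans (Finset.single_le_sum (f := fun h => |Λ h|)
        (fun _ _ => abs_nonneg _) hh)
  · apply Finset.sum_eq_zero
    intro i _
    have : v.repr (c i) h = 0 := by
      by_contra hne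
      exact hh (mem_biUnion.mpr ⟨i, mem_univ _, Finsupp.mem_support_iff.mpr hne⟩)
    rw [this, zero_mul, zero_mul]

/-- Mann's lemma for complex coefficients -/
theorem mann_complex (c : ι → ℂ) : ∃ R : Finset ℂ, ∀ (x : ι → ℂ) (d : ℕ), 0 < d →
    (∀ i, x i ^ d = 1) → ∑ i, c i * x i = 0 → ∀ T : Finset ι,
    (∀ i ∈ T, ∀ j, j ∉ T → x i / x j ∉ R) → ∑ i ∈ T, c i * x i = 0 := by
  obtain ⟨R, hR⟩ := Pool.Agent.N695.CY.split_fin c
  refine ⟨R, fun x d hd hx hsum T hT => ?_⟩
  have h2 := hR 2 (fun _ => 0) x d (by norm_num) (by norm_num) hd hx (by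
    simpa using hsum) T (by
    intro i hi j hj
    simpa using hT i hi j hj)
  simpa using h2

/-- the exponents of a sum without gaps -/
theorem no_gap (A : Finset ι) (e : ι → ℤ) (L : ℕ) (hL : 1 ≤ L) (i0 : ι) (hi0 : i0 ∈ A)
    (hno : ∀ s : ℤ, (∀ i ∈ A, e i ≤ s ∨ s + L ≤ e i) → (∀ i ∈ A, e i ≤ s) ∨ ∀ i ∈ A, s + L ≤ e i) :
    ∀ i ∈ A, e i < e i0 + A.card * L := by
  classical
  intro i1 hi1
  by_contra hcon
  push Not at hcon
  have h1 : ∀ t : Fin A.card, ∃ i ∈ A, e i0 + (t : ℕ) * L < e i ∧ e i < e i0 + ((t : ℕ) + 1) * L := by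
    intro t
    by_contra h2
    push Not at h2
    have ht : ((t : ℕ) : ℤ) + 1 ≤ A.card := by
      have := t.2
      omega
    have hL' : (0 : ℤ) < L := by omega
    have h3 := hno (e i0 + (t : ℕ) * L) (by
      intro i hi
      by_cases h4 : e i ≤ e i0 + (t : ℕ) * L
      · exact Or.inl h4
      · right
        have := h2 i hi (by omega)
        linarith [this])
    rcases h3 with h3 | h3
    · have h4 := h3 i1 hi1
      have h5 : e i0 + (A.card : ℤ) * L ≤ e i0 + (t : ℕ) * L := hcon.trans h4
      have h6 : (A.card : ℤ) * L ≤ (t : ℕ) * L := by linarith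
      have h7 : (A.card : ℤ) ≤ (t : ℕ) := le_of_mul_le_mul_right h6 hL'
      omega
    · have h4 := h3 i0 hi0
      have h5 : (0 : ℤ) ≤ (t : ℕ) * L := by positivity
      linarith
  choose f hfA hf1 hf2 using h1
  have hinj : Function.Injective f := by
    intro t t' htt
    have hL' : (0 : ℤ) < L := by omega
    have h3 := hf1 t
    have h4 := hf2 t'
    have h5 := hf1 t'
    have h6 := hf2 t
    rw [htt] at h3 h6
    have h7 : ((t : ℕ) : ℤ) * L < (((t' : ℕ) : ℤ) + 1) * L := by linarith
    have h8 : ((t' : ℕ) : ℤ) * L < (((t : ℕ) : ℤ) + 1) * L := by linarith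
    have h9 := lt_of_mul_lt_mul_right h7 hL'.le
    have h10 := lt_of_mul_lt_mul_right h8 hL'.le
    apply Fin.ext
    omega
  have hmaps : ∀ t, f t ∈ A.erase i0 := by
    intro t
    rw [Finset.mem_erase]
    refine ⟨?_, hfA t⟩
    intro h
    have h3 := hf1 t
    rw [h] at h3
    have h5 : (0 : ℤ) ≤ (t : ℕ) * L := by positivity
    linarith
  have h3 := Finset.card_le_card_of_injOn (s := (univ : Finset (Fin A.card))) f
    (fun t _ => hmaps t) (fun t _ t' _ h => hinj h)
  rw [Finset.card_univ, Fintype.card_fin, Finset.card_erase_of_mem hi0] at h3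
  have h4 := Finset.card_pos.2 ⟨i0, hi0⟩
  omega

end gap

/-- `b` is an algebraic number of degree at most `D`, not zero and not a root of unity -/
def IsBase (D : ℕ) (b : ℂ) : Prop :=
  IsAlgebraic ℚ b ∧ (minpoly ℚ b).natDegree ≤ D ∧ b ≠ 0 ∧ ∀ m : ℕ, 0 < m → b ^ m ≠ 1

theorem exists_phi : Nonempty (Qbar →+* ℂ) := by
  have hA : Algebra.IsAlgebraic ℚ Qbar := by
    have e : (DivisionRing.toRatAlgebra : Algebra ℚ (AlgebraicClosure ℚ)) =
      (AlgebraicClosure.instAlgebra ℚ : Algebra ℚ (AlgebraicClosure ℚ)) := Subsingleton.elim _ _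
    have := AlgebraicClosure.isAlgebraic ℚ
    rw [← e] at this
    exact this
  exact ⟨(IsAlgClosed.lift : Qbar →ₐ[ℚ] ℂ).toRingHom⟩

theorem lift_alg (φ : Qbar →+* ℂ) (b : ℂ) (hb : IsAlgebraic ℚ b) : ∃ b' : Qbar, φ b' = b := by
  set P := minpoly ℚ b with hP
  have hP0 : P ≠ 0 := minpoly.ne_zero hb.isIntegral
  have hsp : (P.map (algebraMap ℚ Qbar)).Splits := IsAlgClosed.splits _
  have h1 := hsp.roots_map φ
  have h2 : (P.map (algebraMap ℚ Qbar)).map φ = P.map (algebraMap ℚ ℂ) := by
    rw [Polynomial.map_map]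
    congr 1
    exact Subsingleton.elim _ _
  rw [h2] at h1
  have h3 : b ∈ (P.map (algebraMap ℚ ℂ)).roots := by
    rw [Polynomial.mem_roots ((Polynomial.map_ne_zero_iff (algebraMap ℚ ℂ).injective).2 hP0),
      Polynomial.IsRoot.def, Polynomial.eval_map_algebraMap]
    exact minpoly.aeval ℚ b
  rw [h1, Multiset.mem_map] at h3
  obtain ⟨b', _, h4⟩ := h3
  exact ⟨b', h4⟩

theorem minpoly_phi (φ : Qbar →+* ℂ) (b' : Qbar) : minpoly ℚ b' = minpoly ℚ (φ b') := by
  have h1 := minpoly.algHom_eq (A := ℚ) φ.toRatAlgHom φ.injective b'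
  rw [← h1]
  rfl

/-- an algebraic number of positive degree which is not a root of unity has positive height -/
theorem h1_pos (b : Qbar) (hb : b ≠ 0) (hr : ∀ m : ℕ, 0 < m → b ^ m ≠ 1) : 0 < h1 b := by
  classical
  refine lt_of_le_of_ne (h1_nonneg b) fun h => ?_
  obtain ⟨L, hL, x, _, rfl, -⟩ := exists_lift2 b b
  have hN := Northcott.finite_le (h := fun x : L => Height.logHeight₁ x) 0
  have h2 : ∀ m : ℕ, x ^ m ∈ {x : L | Height.logHeight₁ x ≤ 0} := by
    intro m
    have h3 := h1_pow (x : Qbar) m
    rw [← h, mul_zero] at h3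
    have h4 : ((x : Qbar) ^ m) = ((x ^ m : L) : Qbar) := rfl
    rw [h4, h1_val] at h3
    have h5 := finrank_pos' L
    have h6 : Height.logHeight₁ (x ^ m) = 0 := by
      rcases div_eq_zero_iff.1 h3 with h7 | h7
      · exact h7
      · exact absurd h7 h5.ne'
    exact h6.le
  have hinj : ¬ Function.Injective fun m : ℕ => x ^ m := by
    intro hi
    have := Set.infinite_range_of_injective hi
    exact this (hN.subset (by rintro _ ⟨m, rfl⟩; exact h2 m))
  rw [Function.not_injective_iff] at hinj
  obtain ⟨m, m', hmm, hne⟩ := hinj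
  have key : ∀ m m' : ℕ, m < m' → x ^ m = x ^ m' → False := by
    intro m m' hlt heq
    apply hr (m' - m) (by omega)
    have hx0 : (x : Qbar) ^ m ≠ 0 := pow_ne_zero _ hb
    apply mul_left_cancel₀ hx0
    rw [← pow_add, mul_one]
    have h3 : m + (m' - m) = m' := by omega
    rw [h3]
    have h4 := congrArg (fun y : L => (y : Qbar)) heq
    exact h4.symm
  rcases Nat.lt_or_gt_of_ne hne with h3 | h3
  · exact key m m' h3 hmm
  · exact key m' m h3 hmm.symm

/-- **Splitting.** -/
theorem split_alg {ι : Type} [Fintype ι] [DecidableEq ι] (c : ι → ℂ) (D : ℕ) :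
    ∃ R : Finset ℂ, ∀ (b : ℂ) (e : ι → ℤ) (x : ι → ℂ) (d : ℕ), IsBase D b → 0 < d →
      (∀ i, x i ^ d = 1) → ∑ i, c i * b ^ e i * x i = 0 → ∀ T : Finset ι,
      (∀ i ∈ T, ∀ j, j ∉ T → (b ^ e i * x i) / (b ^ e j * x j) ∉ R) →
      ∑ i ∈ T, c i * b ^ e i * x i = 0 := by
  classical
  obtain ⟨φ⟩ := exists_phi
  choose Λ hΛ using fun A : Finset ι => gap_complex φ (fun i : A => c i)
  obtain ⟨Λ0, hΛ0, hΛA⟩ : ∃ Λ0 : ℝ, 0 ≤ Λ0 ∧ ∀ A, Λ A ≤ Λ0 :=
    ⟨∑ A, |Λ A|, Finset.sum_nonneg fun _ _ => abs_nonneg _, fun A =>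
      (le_abs_self _).trans (Finset.single_le_sum (f := fun A => |Λ A|)
        (fun _ _ => abs_nonneg _) (Finset.mem_univ A))⟩
  have hLex : ∀ b : Qbar, ∃ L : ℕ, 1 ≤ L ∧ (0 < h1 b → Λ0 < L * h1 b) ∧ (Λ0 < h1 b → L = 1) := by
    intro b
    by_cases h : Λ0 < h1 b
    · exact ⟨1, le_rfl, fun _ => by simpa using h, fun _ => rfl⟩
    by_cases h0 : 0 < h1 b
    · obtain ⟨L, hL⟩ := exists_nat_gt (Λ0 / h1 b)
      rw [div_lt_iff₀ h0] at hL
      refine ⟨L + 1, by omega, fun _ => ?_, fun h' => absurd h' h⟩
      push_cast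
      nlinarith
    · exact ⟨1, le_rfl, fun h' => absurd h' h0, fun _ => rfl⟩
  choose Lf hL1 hL2 hL3 using hLex
  have hBfin := Pool.Agent.H58W.northcott D Λ0
  choose RM hRM using fun (A : Finset ι) (b : ℂ) (k : A → ℕ) =>
    mann_complex (fun i : A => c i * b ^ k i)
  set m := Fintype.card ι with hm
  let Rbig : Finset ℂ := univ.biUnion fun A : Finset ι => RM A 1 (fun _ => 0)
  let Rs : Qbar → Finset ℂ := fun b => univ.biUnion fun A : Finset ι =>
    (univ : Finset (A → Fin (m * Lf b + 1))).biUnion fun k =>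
      ((Icc (-(m * Lf b : ℤ)) (m * Lf b)) ×ˢ RM A (φ b) (fun i => (k i : ℕ))).image
        fun p => φ b ^ p.1 * p.2
  refine ⟨Rbig ∪ hBfin.toFinset.biUnion Rs, ?_⟩
  rintro b0 e x0 d ⟨hbalg, hbdeg, hb0, hbr⟩ hd hx hsum T hT
  obtain ⟨b, rfl⟩ := lift_alg φ b0 hbalg
  have hb : b ≠ 0 := by
    rintro rfl
    exact hb0 (map_zero φ)
  have hh : 0 < h1 b := h1_pos b hb fun m hm h => hbr m hm (by rw [← map_pow, h, map_one])
  have hxalg : ∀ i, ∃ x' : Qbar, φ x' = x0 i := by
    intro i
    refine lift_alg φ _ ⟨Polynomial.X ^ d - 1, ?_, by simp [hx i]⟩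
    exact Polynomial.X_pow_sub_C_ne_zero hd 1
  choose x hxx using hxalg
  have hxd : ∀ i, x i ^ d = 1 := by
    intro i
    apply φ.injective
    rw [map_pow, hxx, hx, map_one]
  have hx0 : ∀ i, x0 i ≠ 0 := by
    intro i h0
    have := hx i
    rw [h0, zero_pow hd.ne'] at this
    exact zero_ne_one this
  have hratio : ∀ i j, (φ b ^ e i * x0 i) / (φ b ^ e j * x0 j) =
      φ b ^ (e i - e j) * (x0 i / x0 j) := by
    intro i j
    rw [zpow_sub₀ hb0]
    have := hx0 j
    have := zpow_ne_zero (e j) hb0
    field_simp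
  have key : ∀ A : Finset ι, ∑ i ∈ A, c i * φ b ^ e i * x0 i = 0 →
      ∑ i ∈ A.filter (fun i => i ∈ T), c i * φ b ^ e i * x0 i = 0 := by
    intro A
    induction A using Finset.strongInduction with
    | H A ih =>
      intro hA
      rcases A.eq_empty_or_nonempty with rfl | hne
      · simp
      by_cases hth : ∃ s : ℤ, (∀ i ∈ A, e i ≤ s ∨ s + Lf b ≤ e i) ∧ ¬ (∀ i ∈ A, e i ≤ s) ∧
        ¬ (∀ i ∈ A, s + Lf b ≤ e i)
      · -- a gap
        obtain ⟨s, hs1, hs2, hs3⟩ := hth
        push Not at hs2 hs3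
        obtain ⟨i1, hi1, hi1'⟩ := hs2
        obtain ⟨i2, hi2, hi2'⟩ := hs3
        have hg := hΛ A b (fun i => e i) (fun i => x i) d hb hd (fun i => hxd i) (by
          rw [← hA, ← Finset.sum_coe_sort A]
          exact Finset.sum_congr rfl fun i _ => by rw [hxx]) (Lf b) s
          (lt_of_le_of_lt (hΛA A) (hL2 b hh)) (fun i => hs1 i i.2)
        have hg1 : ∑ i ∈ A.filter (fun i => e i ≤ s), c i * φ b ^ e i * x0 i = 0 := by
          rw [← hg, Finset.sum_filter, Finset.sum_filter, ← Finset.sum_coe_sort A]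
          refine Finset.sum_congr rfl fun i _ => ?_
          rw [hxx]
        have hg2 : ∑ i ∈ A.filter (fun i => ¬ e i ≤ s), c i * φ b ^ e i * x0 i = 0 := by
          have h2 := Finset.sum_filter_add_sum_filter_not A (fun i => e i ≤ s)
            (fun i => c i * φ b ^ e i * x0 i)
          rw [hg1, hA, zero_add] at h2
          exact h2
        have hlt1 : A.filter (fun i => e i ≤ s) ⊂ A := by
          rw [Finset.filter_ssubset]
          exact ⟨i1, hi1, by omega⟩
        have hlt2 : A.filter (fun i => ¬ e i ≤ s) ⊂ A := by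
          rw [Finset.filter_ssubset]
          refine ⟨i2, hi2, ?_⟩
          rcases hs1 i2 hi2 with h | h
          · exact fun h' => h' h
          · omega
        have e1 := ih _ hlt1 hg1
        have e2 := ih _ hlt2 hg2
        rw [← Finset.sum_filter_add_sum_filter_not (A.filter fun i => i ∈ T) (fun i => e i ≤ s)]
        rw [Finset.filter_comm, e1, Finset.filter_comm, e2, add_zero]
      · -- no gap
        obtain ⟨i0, hi0, hmin⟩ := A.exists_min_image e hne
        have hno : ∀ s : ℤ, (∀ i ∈ A, e i ≤ s ∨ s + Lf b ≤ e i) →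
            (∀ i ∈ A, e i ≤ s) ∨ ∀ i ∈ A, s + Lf b ≤ e i := by
          intro s hs
          by_contra h
          rw [not_or] at h
          exact hth ⟨s, hs, h.1, h.2⟩
        have hbnd := no_gap A e (Lf b) (hL1 b) i0 hi0 hno
        by_cases hbig : Λ0 < h1 b
        · -- large base
          have hLb := hL3 b hbig
          have heq : ∀ i ∈ A, e i = e i0 := by
            have h2 := hno (e i0) (by
              intro i _
              rw [hLb]
              push_cast
              omega)
            rcases h2 with h2 | h2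
            · exact fun i hi => le_antisymm (h2 i hi) (hmin i hi)
            · have := h2 i0 hi0
              rw [hLb] at this
              push_cast at this
              omega
          have h3 := hRM A 1 (fun _ => 0) (fun i => x0 i) d hd (fun i => hx i) (by
            have h4 : φ b ^ e i0 * ∑ i : A, c i * (1 : ℂ) ^ 0 * x0 i = 0 := by
              rw [← hA, ← Finset.sum_coe_sort A, Finset.mul_sum]
              refine Finset.sum_congr rfl fun i _ => ?_
              rw [heq i i.2]
              ring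
            exact (mul_eq_zero.1 h4).resolve_left (zpow_ne_zero _ hb0))
            (univ.filter fun i : A => (i : ι) ∈ T) (by
            intro i hi j hj
            have hiT := (Finset.mem_filter.1 hi).2
            have hjT : (j : ι) ∉ T := fun h => hj (Finset.mem_filter.2 ⟨Finset.mem_univ _, h⟩)
            intro hR
            apply hT i hiT j hjT
            rw [hratio, heq i i.2, heq j j.2, sub_self, zpow_zero, one_mul]
            refine Finset.mem_union_left _ ?_
            exact Finset.mem_biUnion.2 ⟨A, Finset.mem_univ _, hR⟩)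
          have h5 : ∑ i ∈ A.filter (fun i => i ∈ T), c i * φ b ^ e i * x0 i =
              φ b ^ e i0 * ∑ i ∈ (univ.filter fun i : A => (i : ι) ∈ T), c i * (1 : ℂ) ^ 0 * x0 i := by
            rw [Finset.mul_sum, Finset.sum_filter, Finset.sum_filter, ← Finset.sum_coe_sort A]
            refine Finset.sum_congr rfl fun i _ => ?_
            rw [heq i i.2]
            split_ifs
            · ring
            · rfl
          rw [h5, h3, mul_zero]
        · -- small base
          have hbB : b ∈ hBfin.toFinset := by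
            rw [Set.Finite.mem_toFinset]
            refine ⟨?_, ?_⟩
            · have h2 := minpoly_phi φ b
              have h3 : (minpoly ℚ b).natDegree ≤ D := by
                rw [h2]
                exact hbdeg
              convert h3
            · have h2 := absLogHeight_comp_le ![(1 : Fin 2), 0] ![b, (1 : Qbar)]
              have e1 : ![b, (1 : Qbar)] ∘ ![(1 : Fin 2), 0] = ![(1 : Qbar), b] := by
                funext j; fin_cases j <;> rfl
              rw [e1] at h2
              exact h2.trans (not_lt.1 hbig)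
          have hcardA : A.card ≤ m := Finset.card_le_univ A
          have hk : ∀ i : A, (e i - e i0).toNat < m * Lf b + 1 := by
            intro i
            have h2 := hbnd i i.2
            have h3 := hmin i i.2
            have h4 : (A.card : ℤ) * Lf b ≤ (m : ℤ) * Lf b := by
              have : (A.card : ℤ) ≤ m := by exact_mod_cast hcardA
              exact mul_le_mul_of_nonneg_right this (by positivity)
            have h5 : (((e i - e i0).toNat : ℕ) : ℤ) = e i - e i0 :=
              Int.toNat_of_nonneg (by omega)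
            have h6 : (((e i - e i0).toNat : ℕ) : ℤ) < ((m * Lf b + 1 : ℕ) : ℤ) := by
              rw [h5]
              push_cast
              linarith
            exact_mod_cast h6
          let k : A → Fin (m * Lf b + 1) := fun i => ⟨(e i - e i0).toNat, hk i⟩
          have hkv : ∀ i : A, ((k i : ℕ) : ℤ) = e i - e i0 := fun i =>
            Int.toNat_of_nonneg (by have := hmin i i.2; omega)
          have hbk : ∀ i : A, φ b ^ e i = φ b ^ e i0 * φ b ^ (k i : ℕ) := by
            intro i
            rw [← zpow_natCast, hkv, ← zpow_add₀ hb0]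
            congr 1
            ring
          have h3 := hRM A (φ b) (fun i => (k i : ℕ)) (fun i => x0 i) d hd (fun i => hx i) (by
            have h4 : φ b ^ e i0 * ∑ i : A, c i * φ b ^ (k i : ℕ) * x0 i = 0 := by
              rw [← hA, ← Finset.sum_coe_sort A, Finset.mul_sum]
              refine Finset.sum_congr rfl fun i _ => ?_
              rw [hbk i]
              ring
            exact (mul_eq_zero.1 h4).resolve_left (zpow_ne_zero _ hb0))
            (univ.filter fun i : A => (i : ι) ∈ T) (by
            intro i hi j hj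
            have hiT := (Finset.mem_filter.1 hi).2
            have hjT : (j : ι) ∉ T := fun h => hj (Finset.mem_filter.2 ⟨Finset.mem_univ _, h⟩)
            intro hR
            apply hT i hiT j hjT
            rw [hratio]
            refine Finset.mem_union_right _ ?_
            refine Finset.mem_biUnion.2 ⟨b, hbB, ?_⟩
            refine Finset.mem_biUnion.2 ⟨A, Finset.mem_univ _, ?_⟩
            refine Finset.mem_biUnion.2 ⟨k, Finset.mem_univ _, ?_⟩
            refine Finset.mem_image.2 ⟨(e i - e j, x0 i / x0 j), ?_, rfl⟩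
            rw [Finset.mem_product, Finset.mem_Icc]
            refine ⟨?_, hR⟩
            have h5 := hkv i
            have h6 := hkv j
            have h7 : ((k i : ℕ) : ℤ) ≤ m * Lf b := by exact_mod_cast Nat.lt_succ_iff.1 (k i).2
            have h8 : ((k j : ℕ) : ℤ) ≤ m * Lf b := by exact_mod_cast Nat.lt_succ_iff.1 (k j).2
            have h9 : (0 : ℤ) ≤ (k i : ℕ) := Int.natCast_nonneg _
            have h10 : (0 : ℤ) ≤ (k j : ℕ) := Int.natCast_nonneg _
            constructor
            · show -((m : ℤ) * Lf b) ≤ e i - e j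
              linarith
            · show e i - e j ≤ (m : ℤ) * Lf b
              linarith)
          have h5 : ∑ i ∈ A.filter (fun i => i ∈ T), c i * φ b ^ e i * x0 i =
              φ b ^ e i0 * ∑ i ∈ (univ.filter fun i : A => (i : ι) ∈ T),
                c i * φ b ^ (k i : ℕ) * x0 i := by
            rw [Finset.mul_sum, Finset.sum_filter, Finset.sum_filter, ← Finset.sum_coe_sort A]
            refine Finset.sum_congr rfl fun i _ => ?_
            rw [hbk i]
            split_ifs
            · ring
            · rfl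
          rw [h5, h3, mul_zero]
  have h2 := key univ hsum
  have h3 : (univ : Finset ι).filter (fun i => i ∈ T) = T := by
    ext i
    simp
  rwa [h3] at h2

end Pool.Agent.J6H96.SS
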