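import Mathlib
import Pool.Agent.H533R3.SL.Cur
import Pool.Agent.Helper781.CycHouse.Loxton

set_option autoImplicit false

/-!
# Points with coordinates that are short sums: definitions
-/

namespace Pool.Agent.J6H96.SS

open MvPolynomial

variable {k : Type} [Field k] {n : ℕ}

/-- `x` is a sum of `r` numbers each of which is zero or an element of the group `Γ` -/
def ShortSum {L : Type} [Field L] (Γ : Subgroup Lˣ) (r : ℕ) (x : L) : Prop :=
  ∃ w : Fin r → L, (∀ j, w j = 0 ∨ ∃ u ∈ Γ, (u : L) = w j) ∧ x = ∑ j, w j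

/-- The points over `L` of the projective variety `F = 0` (`F ∈ FF`), not on `G = 0`, with
homogeneous coordinates which are sums of `r` elements of the group `Γ` (or zeros). -/
def shortPts {L : Type} [Field L] [Algebra k L] (FF : Finset (MvPolynomial (Fin (n + 1)) k))
    (G : MvPolynomial (Fin (n + 1)) k) (Γ : Subgroup Lˣ) (r : ℕ) :
    Set (Projectivization L (Fin (n + 1) → L)) :=
  {P | ∃ (x : Fin (n + 1) → L) (h : x ≠ 0), (∀ i, ShortSum Γ r (x i)) ∧
    (∀ F ∈ FF, aeval x F = 0) ∧ aeval x G ≠ 0 ∧ P = Projectivization.mk L x h}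

/-- `x` is a cyclotomic integer: the value `f(ζ)` at a primitive `N`-th root of unity `ζ`, for
some `N`, of a polynomial `f` with integral coefficients; and the mean of `|f(ζ')|²` over all
primitive `N`-th roots of unity `ζ'`, that is the mean of the squares of the absolute values of the
conjugates of `x`, is at most `B`. -/
def CycInt (B : ℝ) (x : ℂ) : Prop :=
  ∃ (N : ℕ) (f : Polynomial ℤ) (ζ : ℂ), 0 < N ∧ IsPrimitiveRoot ζ N ∧
    Pool.Agent.Helper781.CycHouse.mean N f ≤ B ∧ x = Polynomial.aeval ζ f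

/-- `a` is a sum of `r` terms `b ^ m * x`, with `m` an integer and `x` a cyclotomic integer as in
`CycInt` -/
def SparseIn (b : ℂ) (r : ℕ) (B : ℝ) (a : ℂ) : Prop :=
  ∃ (m : Fin r → ℤ) (x : Fin r → ℂ), (∀ j, CycInt B (x j)) ∧ a = ∑ j, b ^ m j * x j

/-- The complex points of the projective variety `F = 0` (`F ∈ FF`), not on `G = 0`, with
homogeneous coordinates `a_1 u_1 + ... + a_p u_p`, where for some algebraic number `b ≠ 0` of degree
at most `D` (which depends on the point) each `a_i` is a sum of `r` terms `b ^ m * x` as in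
`SparseIn`. -/
def sparsePts [Algebra k ℂ] (FF : Finset (MvPolynomial (Fin (n + 1)) k))
    (G : MvPolynomial (Fin (n + 1)) k) {p : ℕ} (u : Fin p → Fin (n + 1) → ℂ) (D r : ℕ) (B : ℝ) :
    Set (Projectivization ℂ (Fin (n + 1) → ℂ)) :=
  {P | ∃ (b : ℂ) (a : Fin p → ℂ) (h : ∑ i, a i • u i ≠ 0), b ≠ 0 ∧ IsAlgebraic ℚ b ∧
    (minpoly ℚ b).natDegree ≤ D ∧ (∀ i, SparseIn b r B (a i)) ∧
    (∀ F ∈ FF, aeval (∑ i, a i • u i) F = 0) ∧ aeval (∑ i, a i • u i) G ≠ 0 ∧
    P = Projectivization.mk ℂ (∑ i, a i • u i) h}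

/-- Over every extension field of `k`, every nonconstant rational curve on `F = 0` (`F ∈ FF`), given
by polynomials, lies in `G = 0`. -/
def CurvesIn (FF : Finset (MvPolynomial (Fin (n + 1)) k)) (G : MvPolynomial (Fin (n + 1)) k) :
    Prop :=
  ∀ (L : Type) [Field L] [Algebra k L] (p : Fin (n + 1) → Polynomial L),
    (∀ F ∈ FF, aeval p F = 0) →
    (∃ i j s t, (p i).eval s * (p j).eval t ≠ (p j).eval s * (p i).eval t) → aeval p G = 0

end Pool.Agent.J6H96.SS
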