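import Mathlib
import Pool.Agent.H533R3.SL.Asm
import Pool.Agent.TH717.GO.Beta

set_option autoImplicit false

/-!
# Rational curves through points whose coordinates are sums of multiplicatively structured terms

`z j t` are sequences of units of a field, `𝒰` an ultrafilter.  If the polynomial relations between
them split along the classes of proportional monomials (`Splits`), then almost all the points
`∑ z j t • w j` of a projective variety lie on rational curves with few terms, or almost all of them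
are one point.
-/

namespace Pool.Agent.J6H96.SS

open Filter Pool.Agent.H533R3.SL

section
variable {L : Type} [Field L] (𝒰 : Ultrafilter ℕ)

/-- eventually constant sequences of units -/
def cst : Subgroup (ℕ → Lˣ) where
  carrier := {g | ∃ c : Lˣ, ∀ᶠ t in (𝒰 : Filter ℕ), g t = c}
  one_mem' := ⟨1, Eventually.of_forall fun _ => rfl⟩
  mul_mem' := by
    rintro a b ⟨c, hc⟩ ⟨d, hd⟩
    exact ⟨c * d, (hc.and hd).mono fun t h => by rw [Pi.mul_apply, h.1, h.2]⟩
  inv_mem' := by
    rintro a ⟨c, hc⟩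
    exact ⟨c⁻¹, hc.mono fun t h => by rw [Pi.inv_apply, h]⟩

theorem cst_tf (g : ℕ → Lˣ) (n : ℕ) (hn : 0 < n) (h : g ^ n ∈ cst (L := L) 𝒰) :
    g ∈ cst (L := L) 𝒰 := by
  classical
  obtain ⟨c, hc⟩ := h
  have hfin : {x : Lˣ | x ^ n = c}.Finite := by
    refine Set.Finite.of_finite_image (f := ((↑) : Lˣ → L)) ?_ (Units.val_injective.injOn)
    refine ((Polynomial.nthRoots n (c : L)).toFinset.finite_toSet).subset ?_
    rintro _ ⟨x, hx, rfl⟩
    rw [Finset.mem_coe, Multiset.mem_toFinset, Polynomial.mem_nthRoots hn]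
    have h1 : x ^ n = c := hx
    rw [← h1, Units.val_pow_eq_pow_val]
  have h2 : ∀ᶠ t in (𝒰 : Filter ℕ), ∃ x ∈ {x : Lˣ | x ^ n = c}, g t = x :=
    hc.mono fun t ht => ⟨g t, ht, rfl⟩
  obtain ⟨x, _, hx⟩ := (Ultrafilter.eventually_exists_mem_iff hfin).1 h2
  exact ⟨x, hx⟩

theorem weights {r : ℕ} (z : Fin r → ℕ → Lˣ) :
    ∃ l : Fin r → ℕ,
      (∀ α β : Fin r → ℕ, ∑ j, α j = ∑ j, β j →
        (∏ j, z j ^ α j) / (∏ j, z j ^ β j) ∈ cst (L := L) 𝒰 →
          ∑ j, α j * l j = ∑ j, β j * l j) ∧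
      ∀ j j', l j = l j' → z j / z j' ∈ cst (L := L) 𝒰 := by
  classical
  let Q := (ℕ → Lˣ) ⧸ cst (L := L) 𝒰
  let H : Subgroup Q := Subgroup.closure (Set.range fun j => (QuotientGroup.mk (z j) : Q))
  have hfg : Group.FG H := by
    rw [Group.fg_iff_subgroup_fg]
    exact ⟨(Set.finite_range _).toFinset, by rw [Set.Finite.coe_toFinset]⟩
  have htf : ∀ (g : H) (n : ℕ), 0 < n → g ^ n = 1 → g = 1 := by
    rintro ⟨g, hg⟩ n hn h
    obtain ⟨a, rfl⟩ := QuotientGroup.mk_surjective g
    apply Subtype.ext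
    have h1 : (QuotientGroup.mk a : Q) ^ n = 1 := congrArg Subtype.val h
    rw [← QuotientGroup.mk_pow, QuotientGroup.eq_one_iff] at h1
    exact (QuotientGroup.eq_one_iff a).2 (cst_tf 𝒰 a n hn h1)
  let y : Fin r → H := fun j => ⟨QuotientGroup.mk (z j), Subgroup.subset_closure ⟨j, rfl⟩⟩
  obtain ⟨β, hβ⟩ := Pool.Agent.TH717.GO.exists_beta hfg htf (Finset.univ.image y)
  let b : Fin r → ℤ := fun j => Multiplicative.toAdd (β (y j))
  let K : ℕ := ∑ j, (b j).natAbs
  have hK : ∀ j, 0 ≤ b j + K := by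
    intro j
    have h1 : (b j).natAbs ≤ K :=
      Finset.single_le_sum (f := fun j => (b j).natAbs) (fun _ _ => Nat.zero_le _)
        (Finset.mem_univ j)
    omega
  have hl : ∀ j, (((b j + K).toNat : ℕ) : ℤ) = b j + K := fun j => Int.toNat_of_nonneg (hK j)
  refine ⟨fun j => (b j + K).toNat, ?_, ?_⟩
  · intro α α' hsum hα
    have h1 : (QuotientGroup.mk (∏ j, z j ^ α j) : Q) = QuotientGroup.mk (∏ j, z j ^ α' j) := by
      have h2 := (QuotientGroup.eq_one_iff (N := cst (L := L) 𝒰) _).2 hα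
      rw [QuotientGroup.mk_div, div_eq_one] at h2
      exact h2
    have hmk : ∀ α : Fin r → ℕ, (QuotientGroup.mk (∏ j, z j ^ α j) : Q) =
        ((∏ j, y j ^ α j : H) : Q) := by
      intro α
      have e1 : (QuotientGroup.mk (∏ j, z j ^ α j) : Q) =
          QuotientGroup.mk' (cst (L := L) 𝒰) (∏ j, z j ^ α j) := rfl
      have e2 : ((∏ j, y j ^ α j : H) : Q) = H.subtype (∏ j, y j ^ α j) := rfl
      rw [e1, e2, map_prod, map_prod]
      refine Finset.prod_congr rfl fun j _ => ?_
      rw [map_pow, map_pow]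
      rfl
    rw [hmk, hmk] at h1
    have h3 : (∏ j, y j ^ α j : H) = ∏ j, y j ^ α' j := Subtype.ext h1
    have h4 := congrArg (fun q => Multiplicative.toAdd (β q)) h3
    have h5 : ∀ α : Fin r → ℕ, Multiplicative.toAdd (β (∏ j, y j ^ α j)) =
        ∑ j, (α j : ℤ) * b j := by
      intro α
      rw [map_prod, toAdd_prod]
      refine Finset.sum_congr rfl fun j _ => ?_
      rw [map_pow, toAdd_pow, nsmul_eq_mul]
    simp only [h5] at h4
    have h6 : ((∑ j, α j * (b j + K).toNat : ℕ) : ℤ) = ((∑ j, α' j * (b j + K).toNat : ℕ) : ℤ) := by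
      push_cast
      have h7 : ∀ α : Fin r → ℕ, ∑ j, (α j : ℤ) * (((b j + K).toNat : ℕ) : ℤ) =
          ∑ j, (α j : ℤ) * b j + (∑ j, (α j : ℤ)) * K := by
        intro α
        rw [Finset.sum_mul, ← Finset.sum_add_distrib]
        refine Finset.sum_congr rfl fun j _ => ?_
        rw [hl]
        ring
      have h8 : (∑ j, (α j : ℤ)) = ∑ j, (α' j : ℤ) := by exact_mod_cast hsum
      have h9 := h7 α
      have h10 := h7 α'
      simp only [Int.natCast_toNat_eq_self.2 (hK _)] at h9 h10 ⊢
      rw [h9, h10, h4, h8]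
    exact_mod_cast h6
  · intro j j' hjj
    have h1 : b j = b j' := by
      have h2 := hl j
      have h3 := hl j'
      have h4 : (b j + K).toNat = (b j' + K).toNat := hjj
      rw [h4] at h2
      omega
    have h2 : y j = y j' := hβ (Finset.mem_coe.2 (Finset.mem_image_of_mem _ (Finset.mem_univ j)))
      (Finset.mem_coe.2 (Finset.mem_image_of_mem _ (Finset.mem_univ j')))
      (Multiplicative.toAdd.injective h1)
    have h3 : (QuotientGroup.mk (z j) : Q) = QuotientGroup.mk (z j') := congrArg Subtype.val h2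
    rw [← QuotientGroup.eq_one_iff (N := cst (L := L) 𝒰), QuotientGroup.mk_div, h3, div_self']

/-- Polynomial relations between the germs split along the classes of proportional monomials. -/
def Splits {r : ℕ} (z : Fin r → ℕ → Lˣ) : Prop :=
  ∀ G : MvPolynomial (Fin r) L,
    (∀ᶠ t in (𝒰 : Filter ℕ), MvPolynomial.eval (fun j => (z j t : L)) G = 0) →
    ∀ T ⊆ G.support, (∀ α ∈ T, ∀ β ∈ G.support, β ∉ T →
      (∏ j, z j ^ α j) / (∏ j, z j ^ β j) ∉ cst (L := L) 𝒰) →
    ∀ᶠ t in (𝒰 : Filter ℕ), ∑ α ∈ T, MvPolynomial.coeff α G * ∏ j, (z j t : L) ^ α j = 0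

end

section
variable {k L : Type} [Field k] [Field L] [Algebra k L] {n r : ℕ}

theorem GU_sum (c : Fin r → Fin (n + 1) → L) (F : MvPolynomial (Fin (n + 1)) k) (e : ℕ)
    (hF : F.IsHomogeneous e) (α : Fin r →₀ ℕ) (hα : α ∈ (GU c F).support) :
    ∑ j, α j = e := by
  have h1 : (GU c F).IsHomogeneous (1 * e) := by
    unfold GU
    refine hF.aeval _ (fun i => ?_)
    refine MvPolynomial.IsHomogeneous.sum _ _ _ fun j _ => ?_
    simpa using (MvPolynomial.isHomogeneous_C (Fin r) (c j i)).mul
      (MvPolynomial.isHomogeneous_X L j)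
  rw [one_mul] at h1
  have h2 := h1 (MvPolynomial.mem_support_iff.1 hα)
  rw [Finsupp.weight_apply, Finsupp.sum_fintype _ _ (by simp)] at h2
  simpa using h2

theorem aeval_cur_smul (w : Fin r → Fin (n + 1) → L) (z : Fin r → L) (l : Fin r → ℕ)
    (F : MvPolynomial (Fin (n + 1)) k) :
    MvPolynomial.aeval (cur (fun j i => z j * w j i) l) F =
      ∑ α ∈ (GU w F).support, Polynomial.C (MvPolynomial.coeff α (GU w F) * ∏ j, z j ^ α j) *
        Polynomial.X ^ (∑ j, α j * l j) := by
  have h1 : MvPolynomial.aeval (cur (fun j i => z j * w j i) l) F =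
      (MvPolynomial.aeval (fun j => Polynomial.C (z j) * (Polynomial.X : Polynomial L) ^ (l j)) :
        MvPolynomial (Fin r) L →ₐ[L] Polynomial L) (GU w F) := by
    have h2 := MvPolynomial.comp_aeval (R := k)
      (fun i => ∑ j, MvPolynomial.C (w j i) * MvPolynomial.X j : Fin (n + 1) →
        MvPolynomial (Fin r) L)
      ((MvPolynomial.aeval (fun j => Polynomial.C (z j) * (Polynomial.X : Polynomial L) ^ (l j)) :
        MvPolynomial (Fin r) L →ₐ[L] Polynomial L).restrictScalars k)
    have h3 := congrArg (fun f => f F) h2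
    have h4 : MvPolynomial.aeval (R := k) (fun i => ((MvPolynomial.aeval
        (fun j => Polynomial.C (z j) * (Polynomial.X : Polynomial L) ^ (l j)) :
        MvPolynomial (Fin r) L →ₐ[L] Polynomial L).restrictScalars k)
        (∑ j, MvPolynomial.C (w j i) * MvPolynomial.X j)) F =
          MvPolynomial.aeval (cur (fun j i => z j * w j i) l) F := by
      congr 2
      funext i
      unfold cur
      rw [map_sum]
      refine Finset.sum_congr rfl fun j _ => ?_
      simp only [AlgHom.coe_restrictScalars', map_mul, MvPolynomial.aeval_X,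
        MvPolynomial.algHom_C, Polynomial.algebraMap_eq]
      ring
    rw [← h4]
    exact h3.symm
  rw [h1, MvPolynomial.aeval_def, MvPolynomial.eval₂_eq']
  refine Finset.sum_congr rfl fun α _ => ?_
  rw [Polynomial.C_mul, mul_assoc]
  congr 1
  simp only [mul_pow]
  rw [Finset.prod_mul_distrib, ← Finset.prod_pow_eq_pow_sum, map_prod]
  congr 1
  · refine Finset.prod_congr rfl fun j _ => ?_
    rw [map_pow]
  · refine Finset.prod_congr rfl fun j _ => ?_
    rw [← pow_mul, mul_comm]

theorem eval_GU (w : Fin r → Fin (n + 1) → L) (z : Fin r → L) (F : MvPolynomial (Fin (n + 1)) k) :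
    MvPolynomial.eval z (GU w F) = MvPolynomial.aeval (fun i => ∑ j, z j * w j i) F := by
  have h1 := aeval_cur_smul w z (fun _ => 0) F
  have h2 := congrArg (Polynomial.eval 1) h1
  have h3 : (MvPolynomial.aeval (cur (fun j i => z j * w j i) fun _ => 0) F).eval 1 =
      MvPolynomial.aeval (fun i => (cur (fun j i => z j * w j i) (fun _ => 0) i).eval 1) F :=
    MvPolynomial.comp_aeval_apply (R := k) (cur (fun j i => z j * w j i) fun _ => 0)
      ((Polynomial.aeval (1 : L) : Polynomial L →ₐ[L] L).restrictScalars k) F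
  rw [h3] at h2
  simp only [cur_eval_one] at h2
  rw [h2, MvPolynomial.eval_eq', Polynomial.eval_finsetSum]
  refine Finset.sum_congr rfl fun α _ => ?_
  rw [Polynomial.eval_mul, Polynomial.eval_C, Polynomial.eval_pow, Polynomial.eval_X, one_pow,
    mul_one]

variable {𝒰 : Ultrafilter ℕ}

/-- the rational curves -/
theorem curve_of_splits (w : Fin r → Fin (n + 1) → L) {z : Fin r → ℕ → Lˣ} (hs : Splits 𝒰 z)
    (FF : Finset (MvPolynomial (Fin (n + 1)) k)) (hhom : ∀ F ∈ FF, ∃ e, F.IsHomogeneous e)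
    (hF : ∀ᶠ t in (𝒰 : Filter ℕ), ∀ F ∈ FF,
      MvPolynomial.aeval (fun i => ∑ j, (z j t : L) * w j i) F = 0)
    (h0 : ∀ᶠ t in (𝒰 : Filter ℕ), ∃ i, ∑ j, (z j t : L) * w j i ≠ 0) :
    ∃ l : Fin r → ℕ, (∀ᶠ t in (𝒰 : Filter ℕ), ∀ F ∈ FF,
        MvPolynomial.aeval (cur (fun j i => (z j t : L) * w j i) l) F = 0) ∧
      ((∀ᶠ t in (𝒰 : Filter ℕ), ∃ i i', cur (fun j i => (z j t : L) * w j i) l i *
          Polynomial.C (∑ j, (z j t : L) * w j i') ≠ cur (fun j i => (z j t : L) * w j i) l i' *
            Polynomial.C (∑ j, (z j t : L) * w j i)) ∨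
        ∃ v : Fin (n + 1) → L, v ≠ 0 ∧ ∀ᶠ t in (𝒰 : Filter ℕ), ∃ c : L,
          ∀ i, ∑ j, (z j t : L) * w j i = c * v i) := by
  classical
  obtain ⟨l, hl1, hl2⟩ := weights 𝒰 z
  refine ⟨l, ?_, ?_⟩
  · rw [Filter.eventually_all_finset]
    intro F hFF
    obtain ⟨e, he⟩ := hhom F hFF
    set P := GU w F with hP
    let ex : (Fin r →₀ ℕ) → ℕ := fun α => ∑ j, α j * l j
    have h1 : ∀ v ∈ P.support.image ex, ∀ᶠ t in (𝒰 : Filter ℕ),
        ∑ α ∈ P.support.filter (fun α => ex α = v),
          MvPolynomial.coeff α P * ∏ j, (z j t : L) ^ α j = 0 := by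
      intro v _
      refine hs P (hF.mono fun t ht => ?_) _ (Finset.filter_subset _ _) ?_
      · rw [hP, eval_GU]
        exact ht F hFF
      · intro α hα β hβ hβT hcst
        rw [Finset.mem_filter] at hα
        apply hβT
        rw [Finset.mem_filter]
        refine ⟨hβ, ?_⟩
        have h2 := hl1 α β (by rw [GU_sum w F e he α hα.1, GU_sum w F e he β hβ]) hcst
        rw [← hα.2]
        exact h2.symm
    rw [← Filter.eventually_all_finset] at h1
    filter_upwards [h1] with t ht
    rw [aeval_cur_smul, ← hP, ← Finset.sum_fiberwise_of_maps_to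
      (fun α hα => Finset.mem_image_of_mem ex hα)]
    refine Finset.sum_eq_zero fun v hv => ?_
    have h2 : ∑ α ∈ P.support.filter (fun α => ex α = v),
        Polynomial.C (MvPolynomial.coeff α P * ∏ j, (z j t : L) ^ α j) *
          Polynomial.X ^ (∑ j, α j * l j) =
        Polynomial.C (∑ α ∈ P.support.filter (fun α => ex α = v),
          MvPolynomial.coeff α P * ∏ j, (z j t : L) ^ α j) * Polynomial.X ^ v := by
      rw [map_sum, Finset.sum_mul]
      refine Finset.sum_congr rfl fun α hα => ?_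
      rw [← (Finset.mem_filter.1 hα).2]
    rw [h2, ht v hv, map_zero, zero_mul]
  · by_cases hc : ∀ᶠ t in (𝒰 : Filter ℕ), ∃ i i', cur (fun j i => (z j t : L) * w j i) l i *
          Polynomial.C (∑ j, (z j t : L) * w j i') ≠ cur (fun j i => (z j t : L) * w j i) l i' *
            Polynomial.C (∑ j, (z j t : L) * w j i)
    · exact Or.inl hc
    right
    rw [← Ultrafilter.eventually_not] at hc
    push Not at hc
    -- the part of exponent `v`
    let S : ℕ → Fin r → Fin (n + 1) → L := fun t j0 i =>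
      ∑ j with l j = l j0, (z j t : L) * w j i
    have hS : ∀ᶠ t in (𝒰 : Filter ℕ), ∃ q ∈ (Set.univ : Set (Fin r × Fin (n + 1))),
        S t q.1 q.2 ≠ 0 := by
      filter_upwards [h0] with t ht
      obtain ⟨i, hi⟩ := ht
      by_contra hcon
      push Not at hcon
      apply hi
      rw [← Finset.sum_fiberwise_of_maps_to (g := l) (t := Finset.univ.image l)
        (fun j hj => Finset.mem_image_of_mem l hj)]
      refine Finset.sum_eq_zero fun v hv => ?_
      obtain ⟨j0, _, rfl⟩ := Finset.mem_image.1 hv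
      exact hcon (j0, i) (Set.mem_univ _)
    obtain ⟨⟨j0, i0⟩, _, hq⟩ := (Ultrafilter.eventually_exists_mem_iff Set.finite_univ).1 hS
    have hκ : ∀ j, l j = l j0 → ∃ κ : Lˣ, ∀ᶠ t in (𝒰 : Filter ℕ), (z j / z j0) t = κ :=
      fun j hj => hl2 j j0 hj
    choose! κ hκ using hκ
    have hκ' : ∀ᶠ t in (𝒰 : Filter ℕ), ∀ j, l j = l j0 → (z j t : L) = κ j * z j0 t := by
      rw [Filter.eventually_all]
      intro j
      by_cases hj : l j = l j0
      · filter_upwards [hκ j hj] with t ht _
        rw [Pi.div_apply, div_eq_iff_eq_mul] at ht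
        rw [ht, Units.val_mul]
      · exact Eventually.of_forall fun t h => absurd h hj
    let v : Fin (n + 1) → L := fun i => ∑ j with l j = l j0, (κ j : L) * w j i
    have hSv : ∀ᶠ t in (𝒰 : Filter ℕ), ∀ i, S t j0 i = z j0 t * v i := by
      filter_upwards [hκ'] with t ht i
      show ∑ j with l j = l j0, (z j t : L) * w j i = z j0 t * ∑ j with l j = l j0, (κ j : L) * w j i
      rw [Finset.mul_sum]
      refine Finset.sum_congr rfl fun j hj => ?_
      rw [ht j (Finset.mem_filter.1 hj).2]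
      ring
    have hv0 : v i0 ≠ 0 := by
      obtain ⟨t, h1, h2⟩ := (hSv.and hq).exists
      intro h3
      apply h2
      show S t j0 i0 = 0
      rw [h1, h3, mul_zero]
    refine ⟨v, fun h => hv0 (congrFun h i0), ?_⟩
    filter_upwards [hc, hSv, hq] with t h1 h2 h3
    refine ⟨(∑ j, (z j t : L) * w j i0) / v i0, fun i => ?_⟩
    have hcoef : ∀ i, (cur (fun j i => (z j t : L) * w j i) l i).coeff (l j0) = S t j0 i := by
      intro i
      unfold cur
      rw [Polynomial.finsetSum_coeff]
      show _ = ∑ j with l j = l j0, (z j t : L) * w j i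
      rw [Finset.sum_filter]
      refine Finset.sum_congr rfl fun j _ => ?_
      rw [Polynomial.coeff_C_mul_X_pow]
      by_cases hj : l j = l j0
      · rw [if_pos hj.symm, if_pos hj]
      · rw [if_neg (fun h => hj h.symm), if_neg hj]
    have h4 := congrArg (fun P => Polynomial.coeff P (l j0)) (h1 i i0)
    simp only [Polynomial.coeff_mul_C] at h4
    rw [hcoef, hcoef, h2, h2] at h4
    have h5 : (z j0 t : L) ≠ 0 := Units.ne_zero _
    have h6 : v i * ∑ j, (z j t : L) * w j i0 = v i0 * ∑ j, (z j t : L) * w j i :=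
      mul_left_cancel₀ h5 (by linear_combination h4)
    rw [div_mul_eq_mul_div, eq_div_iff hv0]
    linear_combination -h6

/-- **Finiteness outside of a hypersurface.** -/
theorem finite_pts (FF : Finset (MvPolynomial (Fin (n + 1)) k))
    (hhom : ∀ F ∈ FF, ∃ e, F.IsHomogeneous e) (G : MvPolynomial (Fin (n + 1)) k)
    (hG : ∀ (c : Fin r → Fin (n + 1) → L) (l : Fin r → ℕ),
        (∀ F ∈ FF, MvPolynomial.aeval (cur c l) F = 0) →
        (∃ i i', cur c l i * Polynomial.C (∑ j, c j i') ≠
          cur c l i' * Polynomial.C (∑ j, c j i)) →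
        MvPolynomial.aeval (fun i => ∑ j, c j i) G = 0)
    (w : Fin r → Fin (n + 1) → L) (Adm : Set (Fin r → Lˣ))
    (hAdm : ∀ z : Fin r → ℕ → Lˣ, (∀ t, (fun j => z j t) ∈ Adm) → ∀ 𝒰 : Ultrafilter ℕ,
      Splits 𝒰 z) :
    {P : Projectivization L (Fin (n + 1) → L) | ∃ (z : Fin r → Lˣ)
      (hv : (fun i => ∑ j, (z j : L) * w j i) ≠ 0), z ∈ Adm ∧
      (∀ F ∈ FF, MvPolynomial.aeval (fun i => ∑ j, (z j : L) * w j i) F = 0) ∧
      MvPolynomial.aeval (fun i => ∑ j, (z j : L) * w j i) G ≠ 0 ∧
      P = Projectivization.mk L _ hv}.Finite := by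
  classical
  by_contra hinf
  let e := Set.Infinite.natEmbedding _ hinf
  choose z hv hz hF hGn hP using fun t : ℕ => (e t).2
  let 𝒰 : Ultrafilter ℕ := Filter.hyperfilter ℕ
  have hs : Splits 𝒰 (fun j t => z t j) := hAdm (fun j t => z t j) hz 𝒰
  obtain ⟨l, h1, h2⟩ := curve_of_splits (k := k) (𝒰 := 𝒰) w hs FF hhom
    (Eventually.of_forall fun t F hFF => hF t F hFF)
    (Eventually.of_forall fun t => by
      by_contra hcon
      push Not at hcon
      exact hv t (funext hcon))
  rcases h2 with h2 | ⟨v, hv0, h2⟩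
  · obtain ⟨t, h3, h4⟩ := (h1.and h2).exists
    exact hGn t (hG (fun j i => (z t j : L) * w j i) l h3 h4)
  · -- two different points
    have h3 : ∀ᶠ t in (𝒰 : Filter ℕ), (e t : Projectivization L (Fin (n + 1) → L)) =
        Projectivization.mk L v hv0 := by
      filter_upwards [h2] with t ht
      obtain ⟨c, hc⟩ := ht
      rw [hP t, Projectivization.mk_eq_mk_iff']
      exact ⟨c, funext fun i => (hc i).symm⟩
    obtain ⟨t0, ht0⟩ := h3.exists
    have h4 : {t : ℕ | (e t : Projectivization L (Fin (n + 1) → L)) =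
        Projectivization.mk L v hv0} ⊆ {t0} := by
      intro t ht
      have h5 : (e t : Projectivization L (Fin (n + 1) → L)) = e t0 := by
        rw [ht0]
        exact ht
      exact e.injective (Subtype.ext h5)
    have h5 : {t : ℕ | (e t : Projectivization L (Fin (n + 1) → L)) =
        Projectivization.mk L v hv0}.Finite := (Set.finite_singleton t0).subset h4
    exact h5.notMem_hyperfilter h3

end

end Pool.Agent.J6H96.SS
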