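import Mathlib
import Pool.Agent.J6H96.SS.Germ
import Pool.Agent.K1H77.PA.Stm

set_option autoImplicit false

/-!
# Sequences in a finitely generated group of units
-/

namespace Pool.Agent.J6H96.SS

open Filter Pool.Agent.H533R3.SL Pool.Agent.K1H77.PA

theorem splits_fg {L : Type} [Field L] (hU : ULI L) (Γ : Subgroup Lˣ) (hΓ : Γ.FG) {r : ℕ}
    (z : Fin r → ℕ → Lˣ) (hz : ∀ j t, z j t ∈ Γ) (𝒰 : Ultrafilter ℕ) : Splits 𝒰 z := by
  classical
  intro P hP T hT hsep
  let Q := (ℕ → Lˣ) ⧸ cst (L := L) 𝒰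
  let mo : (Fin r →₀ ℕ) → (ℕ → Lˣ) := fun α => ∏ j, z j ^ α j
  let c : (Fin r →₀ ℕ) → Q := fun α => QuotientGroup.mk (mo α)
  have hcc : ∀ α β, c α = c β ↔ mo α / mo β ∈ cst (L := L) 𝒰 := by
    intro α β
    rw [← QuotientGroup.eq_one_iff (N := cst (L := L) 𝒰), QuotientGroup.mk_div, div_eq_one]
  have hmoΓ : ∀ α t, mo α t ∈ Γ := by
    intro α t
    show (∏ j, z j ^ α j) t ∈ Γ
    rw [Finset.prod_apply]
    refine Subgroup.prod_mem _ fun j _ => ?_
    rw [Pi.pow_apply]
    exact Subgroup.pow_mem _ (hz j t) _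
  have hmoval : ∀ α t, ((mo α t : Lˣ) : L) = ∏ j, (z j t : L) ^ α j := by
    intro α t
    show (((∏ j, z j ^ α j) t : Lˣ) : L) = _
    rw [Finset.prod_apply, Units.coe_prod]
    refine Finset.prod_congr rfl fun j _ => ?_
    rw [Pi.pow_apply, Units.val_pow_eq_pow_val]
  -- representatives
  have hrep : ∀ q : {q : Q // q ∈ P.support.image c}, ∃ α ∈ P.support, c α = q.1 := by
    intro q
    obtain ⟨α, hα, h⟩ := Finset.mem_image.1 q.2
    exact ⟨α, hα, h⟩
  choose ρ hρ1 hρ2 using hrep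
  have hκ : ∀ α (hα : α ∈ P.support), ∃ κ : Lˣ, ∀ᶠ t in (𝒰 : Filter ℕ),
      mo α t = κ * mo (ρ ⟨c α, Finset.mem_image_of_mem c hα⟩) t := by
    intro α hα
    obtain ⟨κ, hκ⟩ := (hcc α (ρ ⟨c α, Finset.mem_image_of_mem c hα⟩)).1
      (hρ2 ⟨c α, Finset.mem_image_of_mem c hα⟩).symm
    refine ⟨κ, hκ.mono fun t ht => ?_⟩
    rw [Pi.div_apply, div_eq_iff_eq_mul] at ht
    exact ht
  choose! κ hκ using hκ
  let I := {q : Q // q ∈ P.support.image c}
  let e : I ≃ Fin (Fintype.card I) := Fintype.equivFin I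
  let g : Fin (Fintype.card I) → ℕ → Lˣ := fun i => mo (ρ (e.symm i))
  let A : I → L := fun q => ∑ α ∈ P.support.filter (fun α => c α = q.1),
    MvPolynomial.coeff α P * κ α
  have hA : (fun i => A (e.symm i)) = 0 := by
    refine hU Γ hΓ 𝒰 (Fintype.card I) g (fun i t => hmoΓ _ _) ?_ _ ?_
    · intro i j hij b hb
      have hb0 : b ≠ 0 := by
        rintro rfl
        obtain ⟨t, ht⟩ := hb.exists
        rw [zero_mul] at ht
        exact Units.ne_zero _ ht
      have h1 : c (ρ (e.symm i)) = c (ρ (e.symm j)) := by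
        rw [hcc]
        refine ⟨Units.mk0 b hb0, hb.mono fun t ht => ?_⟩
        rw [Pi.div_apply, div_eq_iff_eq_mul]
        apply Units.ext
        rw [Units.val_mul, Units.val_mk0]
        exact ht
      rw [hρ2, hρ2] at h1
      exact hij (e.symm.injective (Subtype.ext h1))
    · have h1 : ∀ᶠ t in (𝒰 : Filter ℕ), ∀ α ∈ P.support, ∀ hα : α ∈ P.support,
          mo α t = κ α * mo (ρ ⟨c α, Finset.mem_image_of_mem c hα⟩) t := by
        rw [Filter.eventually_all_finset]
        intro α hα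
        exact (hκ α hα).mono fun t ht _ => ht
      filter_upwards [h1, hP] with t ht hPt
      rw [MvPolynomial.eval_eq'] at hPt
      rw [← Finset.sum_fiberwise_of_maps_to (g := c) (t := P.support.image c)
        (fun α hα => Finset.mem_image_of_mem c hα)] at hPt
      rw [← Finset.sum_coe_sort] at hPt
      rw [← hPt, ← Equiv.sum_comp e]
      refine Finset.sum_congr rfl fun q _ => ?_
      rw [Equiv.symm_apply_apply]
      show (∑ α ∈ P.support.filter (fun α => c α = q.1), MvPolynomial.coeff α P * κ α) *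
        (mo (ρ (e.symm (e q))) t : L) = _
      rw [Equiv.symm_apply_apply, Finset.sum_mul]
      refine Finset.sum_congr rfl fun α hα => ?_
      rw [Finset.mem_filter] at hα
      have h2 := ht α hα.1 hα.1
      have h3 : (⟨c α, Finset.mem_image_of_mem c hα.1⟩ : I) = q := Subtype.ext hα.2
      rw [h3] at h2
      rw [← hmoval, h2, Units.val_mul, mul_assoc]
  have hA' : ∀ q : I, A q = 0 := by
    intro q
    have h1 := congrFun hA (e q)
    simpa using h1
  have h1 : ∀ᶠ t in (𝒰 : Filter ℕ), ∀ α ∈ P.support, ∀ hα : α ∈ P.support,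
      mo α t = κ α * mo (ρ ⟨c α, Finset.mem_image_of_mem c hα⟩) t := by
    rw [Filter.eventually_all_finset]
    intro α hα
    exact (hκ α hα).mono fun t ht _ => ht
  filter_upwards [h1] with t ht
  rw [← Finset.sum_fiberwise_of_maps_to (g := c) (t := T.image c)
    (fun α hα => Finset.mem_image_of_mem c hα)]
  refine Finset.sum_eq_zero fun q hq => ?_
  obtain ⟨α0, hα0, rfl⟩ := Finset.mem_image.1 hq
  have hα0P := hT hα0
  have hfil : T.filter (fun α => c α = c α0) = P.support.filter (fun α => c α = c α0) := by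
    ext α
    rw [Finset.mem_filter, Finset.mem_filter]
    constructor
    · rintro ⟨h2, h3⟩
      exact ⟨hT h2, h3⟩
    · rintro ⟨h2, h3⟩
      refine ⟨?_, h3⟩
      by_contra h4
      exact hsep α0 hα0 α h2 h4 ((hcc α0 α).1 h3.symm)
  rw [hfil]
  have h2 := hA' ⟨c α0, Finset.mem_image_of_mem c hα0P⟩
  have h3 : ∑ α ∈ P.support.filter (fun α => c α = c α0),
      MvPolynomial.coeff α P * ∏ j, (z j t : L) ^ α j =
      (∑ α ∈ P.support.filter (fun α => c α = c α0), MvPolynomial.coeff α P * κ α) *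
        (mo (ρ ⟨c α0, Finset.mem_image_of_mem c hα0P⟩) t : L) := by
    rw [Finset.sum_mul]
    refine Finset.sum_congr rfl fun α hα => ?_
    rw [Finset.mem_filter] at hα
    have h4 := ht α hα.1 hα.1
    have h5 : (⟨c α, Finset.mem_image_of_mem c hα.1⟩ : I) =
        ⟨c α0, Finset.mem_image_of_mem c hα0P⟩ := Subtype.ext hα.2
    rw [h5] at h4
    rw [← hmoval, h4, Units.val_mul, mul_assoc]
  rw [h3]
  have h4 : (∑ α ∈ P.support.filter (fun α => c α = c α0), MvPolynomial.coeff α P * κ α : L) = 0 :=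
    h2
  rw [h4, zero_mul]

end Pool.Agent.J6H96.SS
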