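import Mathlib
import Pool.Agent.J6H96.SS.Germ
import Pool.Agent.J6H96.SS.Alg
import Pool.Agent.J6H96.SS.Defs
import Pool.Agent.N695.CY.Sparse

set_option autoImplicit false

/-!
# Powers of algebraic numbers of bounded degree times roots of unity
-/

namespace Pool.Agent.J6H96.SS

open Filter Pool.Agent.H533R3.SL

/-- all coordinates are powers of one algebraic number `b` as in `IsBase` times roots of unity -/
def IsSolD {J : Type} (D : ℕ) (z : J → ℂ) : Prop :=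
  ∃ (b : ℂ) (m : J → ℤ) (x : J → ℂ) (d : ℕ), IsBase D b ∧ 0 < d ∧
    (∀ j, x j ^ d = 1) ∧ ∀ j, z j = b ^ m j * x j

theorem zpow_sum' {ι : Type} (b : ℂ) (hb : b ≠ 0) (f : ι → ℤ) (s : Finset ι) :
    b ^ (∑ i ∈ s, f i) = ∏ i ∈ s, b ^ f i := by
  classical
  induction s using Finset.induction_on with
  | empty => simp
  | insert a s ha ih => rw [Finset.sum_insert ha, Finset.prod_insert ha, zpow_add₀ hb, ih]

theorem split_monD {r : ℕ} (D : ℕ) (G : MvPolynomial (Fin r) ℂ) :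
    ∃ R : Finset ℂ, ∀ z : Fin r → ℂ, IsSolD D z → MvPolynomial.eval z G = 0 →
      ∀ T : Finset (Fin r →₀ ℕ), T ⊆ G.support →
      (∀ α ∈ T, ∀ β ∈ G.support, β ∉ T → (∏ j, z j ^ α j) / (∏ j, z j ^ β j) ∉ R) →
      ∑ α ∈ T, MvPolynomial.coeff α G * ∏ j, z j ^ α j = 0 := by
  classical
  obtain ⟨R, hR⟩ := split_alg (fun α : G.support => MvPolynomial.coeff (α : Fin r →₀ ℕ) G) D
  refine ⟨R, ?_⟩
  rintro z ⟨b, m, x, d, hb, hd, hx, hz⟩ hG T hT hcl
  have hbC : b ≠ 0 := hb.2.2.1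
  have hmon : ∀ α : Fin r →₀ ℕ, ∏ j, z j ^ α j =
      b ^ (∑ j, m j * (α j : ℤ)) * ∏ j, x j ^ α j := by
    intro α
    rw [zpow_sum' _ hbC, ← Finset.prod_mul_distrib]
    refine Finset.prod_congr rfl fun j _ => ?_
    rw [hz, mul_pow, zpow_mul, zpow_natCast]
  have key := hR b (fun α => ∑ j, m j * ((α : Fin r →₀ ℕ) j : ℤ))
    (fun α => ∏ j, x j ^ (α : Fin r →₀ ℕ) j) d hb hd (by
      intro α
      rw [← Finset.prod_pow]
      refine Finset.prod_eq_one fun j _ => ?_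
      rw [← pow_mul, mul_comm, pow_mul, hx, one_pow]) (by
      rw [MvPolynomial.eval_eq'] at hG
      rw [← hG, ← Finset.sum_coe_sort G.support]
      refine Finset.sum_congr rfl fun α _ => ?_
      rw [mul_assoc, ← hmon])
      (Finset.univ.filter fun α : G.support => (α : Fin r →₀ ℕ) ∈ T) (by
      intro α hα β hβ
      rw [← hmon, ← hmon]
      exact hcl α (Finset.mem_filter.mp hα).2 β β.2
        fun h => hβ (Finset.mem_filter.mpr ⟨Finset.mem_univ _, h⟩))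
  rw [← key, Finset.sum_filter]
  have h1 : ∀ α : G.support, (if (α : Fin r →₀ ℕ) ∈ T then
      MvPolynomial.coeff (α : Fin r →₀ ℕ) G *
      b ^ (∑ j, m j * ((α : Fin r →₀ ℕ) j : ℤ)) * ∏ j, x j ^ (α : Fin r →₀ ℕ) j else 0) =
      (fun α : Fin r →₀ ℕ => if α ∈ T then MvPolynomial.coeff α G * ∏ j, z j ^ α j else 0) α := by
    intro α
    simp only [hmon, mul_assoc]
  simp only [h1]
  rw [Finset.sum_coe_sort G.support
    (fun α : Fin r →₀ ℕ => if α ∈ T then MvPolynomial.coeff α G * ∏ j, z j ^ α j else 0),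
    ← Finset.sum_filter]
  congr 1
  ext α
  rw [Finset.mem_filter]
  exact ⟨fun h => ⟨hT h, h⟩, fun h => h.2⟩

theorem splits_sol {r : ℕ} (D : ℕ) (z : Fin r → ℕ → ℂˣ)
    (hz : ∀ t, IsSolD D (fun j => (z j t : ℂ))) (𝒰 : Ultrafilter ℕ) : Splits 𝒰 z := by
  classical
  intro P hP T hT hsep
  obtain ⟨R, hR⟩ := split_monD D P
  let mo : (Fin r →₀ ℕ) → (ℕ → ℂˣ) := fun α => ∏ j, z j ^ α j
  have hmoval : ∀ α t, ((mo α t : ℂˣ) : ℂ) = ∏ j, (z j t : ℂ) ^ α j := by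
    intro α t
    show (((∏ j, z j ^ α j) t : ℂˣ) : ℂ) = _
    rw [Finset.prod_apply, Units.coe_prod]
    refine Finset.prod_congr rfl fun j _ => ?_
    rw [Pi.pow_apply, Units.val_pow_eq_pow_val]
  have h1 : ∀ᶠ t in (𝒰 : Filter ℕ), ∀ α ∈ T, ∀ β ∈ P.support, β ∉ T →
      (∏ j, (z j t : ℂ) ^ α j) / (∏ j, (z j t : ℂ) ^ β j) ∉ R := by
    rw [Filter.eventually_all_finset]
    intro α hα
    rw [Filter.eventually_all_finset]
    intro β hβ
    by_cases hβT : β ∈ T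
    · exact Eventually.of_forall fun t h => absurd hβT h
    have h2 := hsep α hα β hβ hβT
    by_contra hcon
    rw [← Ultrafilter.eventually_not] at hcon
    push Not at hcon
    have h3 : ∀ᶠ t in (𝒰 : Filter ℕ), ∃ ρ ∈ (R : Set ℂ),
        (∏ j, (z j t : ℂ) ^ α j) / (∏ j, (z j t : ℂ) ^ β j) = ρ :=
      hcon.mono fun t ht => ⟨_, ht.2, rfl⟩
    obtain ⟨ρ, _, hρ⟩ := (Ultrafilter.eventually_exists_mem_iff R.finite_toSet).1 h3
    have hρ0 : ρ ≠ 0 := by
      obtain ⟨t, ht⟩ := hρ.exists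
      rw [← ht, ← hmoval, ← hmoval]
      exact div_ne_zero (Units.ne_zero _) (Units.ne_zero _)
    apply h2
    refine ⟨Units.mk0 ρ hρ0, hρ.mono fun t ht => ?_⟩
    show (mo α / mo β) t = _
    rw [Pi.div_apply]
    apply Units.ext
    rw [Units.val_div_eq_div_val, hmoval, hmoval, Units.val_mk0]
    exact ht
  filter_upwards [h1, hP] with t ht hPt
  exact hR _ (hz t) hPt T hT ht

theorem isBase_two {D : ℕ} (hD : 1 ≤ D) : IsBase D 2 := by
  refine ⟨by simpa using isAlgebraic_algebraMap (R := ℚ) (A := ℂ) (2 : ℚ), ?_, two_ne_zero, ?_⟩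
  · have h1 : minpoly ℚ (algebraMap ℚ ℂ 2) = Polynomial.X - Polynomial.C 2 :=
      minpoly.eq_X_sub_C ℂ (2 : ℚ)
    have h2 : algebraMap ℚ ℂ 2 = 2 := by norm_num
    rw [h2] at h1
    rw [h1, Polynomial.natDegree_X_sub_C]
    exact hD
  · intro m hm h
    have h1 : ((2 ^ m : ℕ) : ℂ) = ((1 : ℕ) : ℂ) := by push_cast; exact h
    have h2 : 2 ^ m = 1 := by exact_mod_cast h1
    have h3 : 1 < 2 ^ m := Nat.one_lt_two_pow hm.ne'
    omega

/-- The combinations of vectors with sparse coefficients are short sums. -/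
theorem decompD {n : ℕ} (p : ℕ) (r : ℕ) (B : ℝ) :
    ∃ N : ℕ, ∀ (u : Fin p → Fin n → ℂ), ∃ W : Set (Fin N → Fin n → ℂ), W.Finite ∧
      ∀ (D : ℕ) (b : ℂ) (a : Fin p → ℂ), b ≠ 0 → IsAlgebraic ℚ b → (minpoly ℚ b).natDegree ≤ D →
        (∀ i, SparseIn b r B (a i)) →
      ∃ w ∈ W, ∃ z : Fin N → ℂˣ, IsSolD (D + 1) (fun j => (z j : ℂ)) ∧
        (∑ i, a i • u i) = fun i => ∑ j, (z j : ℂ) * w j i := by
  classical
  obtain ⟨k, hk⟩ := exists_nat_ge (2 * B)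
  obtain ⟨Λ, hΛ⟩ := Pool.Agent.Helper781.CycHouse.loxton k
  let ι := Fin p × Fin r × Fin Λ
  let e : ι ≃ Fin (Fintype.card ι) := Fintype.equivFin ι
  refine ⟨Fintype.card ι, fun u => ?_⟩
  let wJ : Finset ι → Fin (Fintype.card ι) → Fin n → ℂ := fun J j =>
    if e.symm j ∈ J then u (e.symm j).1 else 0
  refine ⟨Set.range wJ, Set.finite_range _, ?_⟩
  intro D b a hbC hbalg hbdeg ha
  choose m x hx hax using ha
  have hlen : ∀ i j, ∃ (A : Finset (Fin Λ)) (ζ : Fin Λ → ℂ),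
      (∀ l, ∃ m : ℕ, 0 < m ∧ ζ l ^ m = 1) ∧ ∑ l ∈ A, ζ l = x i j := by
    intro i j
    obtain ⟨N, f, z, hN, hz, hmean, hxf⟩ := hx i j
    obtain ⟨s, hs1, hs2, hs3⟩ := hΛ N hN f (by linarith) z hz
    obtain ⟨A, ζ, _, h2, h3⟩ := Pool.Agent.N695.CY.len_fin Λ s hs1 hs2
    exact ⟨A, ζ, h2, by rw [h3, hs3, hxf]⟩
  choose A ζ hζ hA using hlen
  choose o ho0 ho1 using hζ
  have hζ0 : ∀ i j l, ζ i j l ≠ 0 := by
    intro i j l h0
    have h1 := ho1 i j l
    rw [h0, zero_pow (ho0 i j l).ne'] at h1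
    exact zero_ne_one h1
  set J : Finset ι := Finset.univ.filter fun k => k.2.2 ∈ A k.1 k.2.1 with hJ
  let zz : ι → ℂ := fun k => b ^ m k.1 k.2.1 * ζ k.1 k.2.1 k.2.2
  have hzz : ∀ k, zz k ≠ 0 := fun k => mul_ne_zero (zpow_ne_zero _ hbC) (hζ0 _ _ _)
  have hdvd : ∀ k : ι, o k.1 k.2.1 k.2.2 ∣ ∏ i, ∏ j, ∏ l, o i j l := by
    rintro ⟨i, j, l⟩
    exact ((Finset.dvd_prod_of_mem (fun l => o i j l) (Finset.mem_univ l)).trans
      (Finset.dvd_prod_of_mem (fun j => ∏ l, o i j l) (Finset.mem_univ j))).trans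
      (Finset.dvd_prod_of_mem (fun i => ∏ j, ∏ l, o i j l) (Finset.mem_univ i))
  have hζd : ∀ k : ι, ζ k.1 k.2.1 k.2.2 ^ (∏ i, ∏ j, ∏ l, o i j l) = 1 := by
    intro k
    obtain ⟨q, hq⟩ := hdvd k
    rw [hq, pow_mul, ho1, one_pow]
  have hopos : 0 < ∏ i, ∏ j, ∏ l, o i j l :=
    Finset.prod_pos fun i _ => Finset.prod_pos fun j _ => Finset.prod_pos fun l _ => ho0 i j l
  refine ⟨wJ J, ⟨J, rfl⟩, fun j => Units.mk0 (zz (e.symm j)) (hzz _), ?_, ?_⟩
  · by_cases hroot : ∃ q : ℕ, 0 < q ∧ b ^ q = 1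
    · obtain ⟨q, hq, hbq⟩ := hroot
      refine ⟨2, fun _ => 0, fun j => zz (e.symm j), q * ∏ i, ∏ j, ∏ l, o i j l,
        isBase_two (by omega), Nat.mul_pos hq hopos, ?_, fun j => ?_⟩
      · intro j
        show (b ^ m _ _ * ζ _ _ _) ^ _ = 1
        rw [mul_pow]
        have h1 : (b ^ m (e.symm j).1 (e.symm j).2.1) ^ (q * ∏ i, ∏ j, ∏ l, o i j l) = 1 := by
          rw [← zpow_natCast, ← zpow_mul, mul_comm, zpow_mul, zpow_natCast, pow_mul, hbq, one_pow,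
            one_zpow]
        have h2 : ζ (e.symm j).1 (e.symm j).2.1 (e.symm j).2.2 ^
            (q * ∏ i, ∏ j, ∏ l, o i j l) = 1 := by
          rw [mul_comm, pow_mul, hζd, one_pow]
        rw [h1, h2, one_mul]
      · show zz (e.symm j) = 2 ^ (0 : ℤ) * zz (e.symm j)
        rw [zpow_zero, one_mul]
    · push Not at hroot
      exact ⟨b, fun j => m (e.symm j).1 (e.symm j).2.1,
        fun j => ζ (e.symm j).1 (e.symm j).2.1 (e.symm j).2.2,
        ∏ i, ∏ j, ∏ l, o i j l, ⟨hbalg, by omega, hbC, fun q hq => hroot q hq⟩, hopos,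
        fun j => hζd _, fun _ => rfl⟩
  · funext i'
    rw [Finset.sum_apply]
    have h1 : ∑ j, ((Units.mk0 (zz (e.symm j)) (hzz _) : ℂˣ) : ℂ) * wJ J j i' =
        ∑ k : ι, if k ∈ J then zz k * u k.1 i' else 0 := by
      rw [← Equiv.sum_comp e.symm]
      refine Finset.sum_congr rfl fun j _ => ?_
      rw [Units.val_mk0]
      show zz (e.symm j) * (if e.symm j ∈ J then u (e.symm j).1 else 0 : Fin n → ℂ) i' = _
      split_ifs
      · rfl
      · rw [Pi.zero_apply, mul_zero]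
    rw [h1, ← Finset.sum_filter]
    have h2 : Finset.univ.filter (fun k => k ∈ J) = J := by
      ext k
      simp
    rw [h2, hJ, Finset.sum_filter, Fintype.sum_prod_type]
    refine Finset.sum_congr rfl fun i _ => ?_
    rw [Pi.smul_apply, smul_eq_mul, hax, Finset.sum_mul, Fintype.sum_prod_type]
    refine Finset.sum_congr rfl fun j _ => ?_
    simp only [zz]
    rw [← Finset.sum_filter, ← hA i j, Finset.mul_sum, Finset.sum_mul]
    refine Finset.sum_congr ?_ fun _ _ => rfl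
    ext l
    simp

end Pool.Agent.J6H96.SS
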