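import Mathlib
import Pool.Agent.J6H96.SS.Sol
import Pool.Agent.J6H96.SS.FG
import Pool.Agent.TH409.SH.Conv
import Pool.Agent.K1H33.PA.UliQ
import Pool.Agent.K1H41.PA.Uli

set_option autoImplicit false

/-!
# Points with coordinates that are short sums: finiteness and its converse
-/

namespace Pool.Agent.J6H96.SS

open Filter Pool.Agent.H533R3.SL

section
variable {k : Type} [Field k] {n : ℕ}

/-- the condition on `G` for curves with `r` terms over `L` -/
def CurveCond (FF : Finset (MvPolynomial (Fin (n + 1)) k)) (G : MvPolynomial (Fin (n + 1)) k)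
    (L : Type) [Field L] [Algebra k L] (r : ℕ) : Prop :=
  ∀ (c : Fin r → Fin (n + 1) → L) (l : Fin r → ℕ),
    (∀ F ∈ FF, MvPolynomial.aeval (cur c l) F = 0) →
    (∃ i i', cur c l i * Polynomial.C (∑ j, c j i') ≠ cur c l i' * Polynomial.C (∑ j, c j i)) →
    MvPolynomial.aeval (fun i => ∑ j, c j i) G = 0

theorem CurveCond.of_curvesIn {FF : Finset (MvPolynomial (Fin (n + 1)) k)}
    {G : MvPolynomial (Fin (n + 1)) k} (h : CurvesIn FF G) (L : Type) [Field L] [Infinite L]
    [Algebra k L] (r : ℕ) : CurveCond FF G L r := by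
  rintro c l hF ⟨i, i', hne⟩
  obtain ⟨i1, j1, s, t, hst⟩ := Pool.Agent.TH409.SH.nonconst_of (cur c l) ⟨i, i', by
    rw [cur_eval_one, cur_eval_one]
    exact hne⟩
  have h1 := h L (cur c l) hF ⟨i1, j1, s, t, hst⟩
  have h2 := congrArg (Polynomial.eval 1) h1
  have h3 : (MvPolynomial.aeval (cur c l) G).eval 1 =
      MvPolynomial.aeval (fun i => (cur c l i).eval 1) G :=
    MvPolynomial.comp_aeval_apply (R := k) (cur c l)
      ((Polynomial.aeval (1 : L) : Polynomial L →ₐ[L] L).restrictScalars k) G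
  rw [h3, Polynomial.eval_zero] at h2
  simpa only [cur_eval_one] using h2

/-- finiteness of the short points -/
theorem short_finite [CharZero k] (FF : Finset (MvPolynomial (Fin (n + 1)) k))
    (hhom : ∀ F ∈ FF, ∃ e, F.IsHomogeneous e) (G : MvPolynomial (Fin (n + 1)) k)
    (L : Type) [Field L] [Algebra k L] (r : ℕ) (hG : CurveCond FF G L ((n + 1) * r))
    (Γ : Subgroup Lˣ) (hΓ : Γ.FG) : (shortPts FF G Γ r).Finite := by
  classical
  have hchar : CharZero L := charZero_of_injective_algebraMap (algebraMap k L).injective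
  let e : Fin (n + 1) × Fin r ≃ Fin ((n + 1) * r) := finProdFinEquiv
  let wJ : Finset (Fin (n + 1) × Fin r) → Fin ((n + 1) * r) → Fin (n + 1) → L := fun J q i =>
    if e.symm q ∈ J ∧ (e.symm q).1 = i then 1 else 0
  have hfin : ∀ J, {P : Projectivization L (Fin (n + 1) → L) | ∃ (z : Fin ((n + 1) * r) → Lˣ)
      (hv : (fun i => ∑ j, (z j : L) * wJ J j i) ≠ 0), z ∈ {z : Fin ((n + 1) * r) → Lˣ |
        ∀ j, z j ∈ Γ} ∧
      (∀ F ∈ FF, MvPolynomial.aeval (fun i => ∑ j, (z j : L) * wJ J j i) F = 0) ∧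
      MvPolynomial.aeval (fun i => ∑ j, (z j : L) * wJ J j i) G ≠ 0 ∧
      P = Projectivization.mk L _ hv}.Finite := by
    intro J
    refine finite_pts FF hhom G hG (wJ J) _ fun z hz 𝒰 => ?_
    exact splits_fg (Pool.Agent.K1H41.PA.t_ULI Pool.Agent.K1H33.PA.t_ULI_Q L) Γ hΓ z
      (fun j t => hz t j) 𝒰
  refine (Set.finite_iUnion hfin).subset ?_
  rintro P ⟨x, hx, hsh, hF, hGx, rfl⟩
  choose w hw hxw using hsh
  let J : Finset (Fin (n + 1) × Fin r) := Finset.univ.filter fun q => w q.1 q.2 ≠ 0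
  have hz : ∀ q : Fin (n + 1) × Fin r, ∃ u ∈ Γ, q ∈ J → (u : L) = w q.1 q.2 := by
    intro q
    by_cases hq : q ∈ J
    · have h1 : w q.1 q.2 ≠ 0 := (Finset.mem_filter.1 hq).2
      rcases hw q.1 q.2 with h | ⟨u, hu, h⟩
      · exact absurd h h1
      · exact ⟨u, hu, fun _ => h⟩
    · exact ⟨1, Γ.one_mem, fun h => absurd h hq⟩
  choose z hzΓ hz using hz
  have hpt : x = fun i => ∑ j, ((z (e.symm j) : Lˣ) : L) * wJ J j i := by
    funext i
    rw [← Equiv.sum_comp e]
    simp only [wJ, Equiv.symm_apply_apply]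
    rw [Fintype.sum_prod_type, Finset.sum_eq_single i]
    · rw [hxw]
      refine Finset.sum_congr rfl fun j _ => ?_
      by_cases hj : (i, j) ∈ J
      · rw [if_pos ⟨hj, rfl⟩, mul_one, hz _ hj]
      · rw [if_neg (fun h => hj h.1), mul_zero]
        by_contra h
        exact hj (Finset.mem_filter.2 ⟨Finset.mem_univ _, h⟩)
    · intro i' _ hi'
      refine Finset.sum_eq_zero fun j _ => ?_
      rw [if_neg (fun h => hi' h.2), mul_zero]
    · intro h
      exact absurd (Finset.mem_univ _) h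
  rw [Set.mem_iUnion]
  subst hpt
  exact ⟨J, fun j => z (e.symm j), hx, fun j => hzΓ _, hF, hGx, rfl⟩

/-- finiteness of the sparse points -/
theorem sparse_finite [Algebra k ℂ] (n : ℕ) (p r : ℕ) (B : ℝ) : ∃ N : ℕ, ∀
    (FF : Finset (MvPolynomial (Fin (n + 1)) k))
    (_ : ∀ F ∈ FF, ∃ e, F.IsHomogeneous e) (G : MvPolynomial (Fin (n + 1)) k)
    (_ : CurveCond FF G ℂ N) (u : Fin p → Fin (n + 1) → ℂ) (D : ℕ),
    (sparsePts FF G u D r B).Finite := by
  classical
  obtain ⟨N, hN⟩ := decompD (n := n + 1) p r B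
  refine ⟨N, fun FF hhom G hG u D => ?_⟩
  obtain ⟨W, hW, hdec⟩ := hN u
  have hfin : ∀ w ∈ W, {P : Projectivization ℂ (Fin (n + 1) → ℂ) | ∃ (z : Fin N → ℂˣ)
      (hv : (fun i => ∑ j, (z j : ℂ) * w j i) ≠ 0),
        z ∈ {z : Fin N → ℂˣ | IsSolD (D + 1) (fun j => (z j : ℂ))} ∧
      (∀ F ∈ FF, MvPolynomial.aeval (fun i => ∑ j, (z j : ℂ) * w j i) F = 0) ∧
      MvPolynomial.aeval (fun i => ∑ j, (z j : ℂ) * w j i) G ≠ 0 ∧
      P = Projectivization.mk ℂ _ hv}.Finite := by
    intro w _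
    exact finite_pts FF hhom G hG w _ fun z hz 𝒰 => splits_sol (D + 1) z hz 𝒰
  refine (hW.biUnion hfin).subset ?_
  rintro P ⟨b, a, h, hb0, hbalg, hbdeg, ha, hF, hGx, rfl⟩
  obtain ⟨w, hw, z, hz, hpt⟩ := hdec D b a hb0 hbalg hbdeg ha
  rw [Set.mem_iUnion₂]
  refine ⟨w, hw, z, ?_, hz, ?_, ?_, ?_⟩
  · rw [← hpt]; exact h
  · rw [← hpt]; exact hF
  · rw [← hpt]; exact hGx
  · simp only [hpt]

end

section conv
variable {k : Type} [Field k] {n : ℕ}

/-- infinitely many points on a curve -/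
theorem inf_pts {K : Type} [Field K] [CharZero K] [Algebra k K]
    (q : Fin (n + 1) → Polynomial K) (G : MvPolynomial (Fin (n + 1)) k)
    (hG0 : MvPolynomial.aeval q G ≠ 0)
    (hnc : ∃ i j s t, (q i).eval s * (q j).eval t ≠ (q j).eval s * (q i).eval t) :
    {P : Projectivization K (Fin (n + 1) → K) | ∃ (m : ℕ)
      (h : (fun i => (q i).eval ((2 : K) ^ m)) ≠ 0),
      MvPolynomial.aeval (fun i => (q i).eval ((2 : K) ^ m)) G ≠ 0 ∧
      P = Projectivization.mk K _ h}.Infinite := by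
  classical
  obtain ⟨i1, i2, a, b, hab⟩ := hnc
  intro hfin
  have hevG : ∀ (F : MvPolynomial (Fin (n + 1)) k) (t : K), (MvPolynomial.aeval q F).eval t =
      MvPolynomial.aeval (fun i => (q i).eval t) F := by
    intro F t
    exact MvPolynomial.comp_aeval_apply (R := k) q
      ((Polynomial.aeval t : Polynomial K →ₐ[K] K).restrictScalars k) F
  have hq0 : q i1 ≠ 0 ∨ q i2 ≠ 0 := by
    by_contra h
    push Not at h
    apply hab
    rw [h.1, h.2]
  have h2inj : Function.Injective (fun m : ℕ => (2 : K) ^ m) := by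
    intro m m' h
    have h4 : ((2 ^ m : ℕ) : K) = ((2 ^ m' : ℕ) : K) := by push_cast; exact h
    exact Nat.pow_right_injective (le_refl 2) (Nat.cast_injective h4)
  let Q : Polynomial K := MvPolynomial.aeval q G * (if q i1 = 0 then q i2 else q i1)
  have hQ : Q ≠ 0 := by
    refine mul_ne_zero hG0 ?_
    split_ifs with h
    · rcases hq0 with h' | h'
      · exact absurd h h'
      · exact h'
    · exact h
  let good : Set ℕ := {m | Q.eval ((2 : K) ^ m) ≠ 0}
  have hgood : goodᶜ.Finite := by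
    refine Set.Finite.of_finite_image (f := fun m : ℕ => (2 : K) ^ m) ?_ h2inj.injOn
    refine (Q.roots.toFinset.finite_toSet).subset ?_
    rintro _ ⟨m, hm, rfl⟩
    have : Q.eval ((2 : K) ^ m) = 0 := by
      by_contra h
      exact hm h
    simpa [hQ] using this
  have hginf : good.Infinite := by
    intro h
    have := h.union hgood
    rw [Set.union_compl_self] at this
    exact Set.infinite_univ this
  have hgne : ∀ m ∈ good, (fun i => (q i).eval ((2 : K) ^ m)) ≠ 0 := by
    intro m hm h0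
    apply hm
    show (MvPolynomial.aeval q G * (if q i1 = 0 then q i2 else q i1)).eval ((2 : K) ^ m) = 0
    rw [Polynomial.eval_mul]
    have h5 : ∀ i, (q i).eval ((2 : K) ^ m) = 0 := fun i => congrFun h0 i
    split_ifs
    · rw [h5, mul_zero]
    · rw [h5, mul_zero]
  have hgG : ∀ m ∈ good, MvPolynomial.aeval (fun i => (q i).eval ((2 : K) ^ m)) G ≠ 0 := by
    intro m hm h0
    apply hm
    show (MvPolynomial.aeval q G * (if q i1 = 0 then q i2 else q i1)).eval ((2 : K) ^ m) = 0
    rw [Polynomial.eval_mul, hevG, h0, zero_mul]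
  let pt : ℕ → Projectivization K (Fin (n + 1) → K) := fun m =>
    if h : (fun i => (q i).eval ((2 : K) ^ m)) ≠ 0 then Projectivization.mk K _ h
    else Projectivization.mk K (fun _ => 1) (fun h => one_ne_zero (congrFun h 0))
  obtain ⟨P, -, hP⟩ : ∃ P ∈ {P : Projectivization K (Fin (n + 1) → K) | ∃ (m : ℕ)
      (h : (fun i => (q i).eval ((2 : K) ^ m)) ≠ 0),
      MvPolynomial.aeval (fun i => (q i).eval ((2 : K) ^ m)) G ≠ 0 ∧
      P = Projectivization.mk K _ h}, (good ∩ pt ⁻¹' {P}).Infinite := by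
    by_contra hcon
    push Not at hcon
    apply hginf
    have h6 : good ⊆ ⋃ P ∈ {P : Projectivization K (Fin (n + 1) → K) | ∃ (m : ℕ)
      (h : (fun i => (q i).eval ((2 : K) ^ m)) ≠ 0),
      MvPolynomial.aeval (fun i => (q i).eval ((2 : K) ^ m)) G ≠ 0 ∧
      P = Projectivization.mk K _ h}, good ∩ pt ⁻¹' {P} := by
      intro m hm
      have hpt : pt m = Projectivization.mk K _ (hgne m hm) := by
        simp only [pt, dif_pos (hgne m hm)]
      exact Set.mem_biUnion (x := pt m) ⟨m, hgne m hm, hgG m hm, hpt⟩ ⟨hm, rfl⟩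
    exact (Set.Finite.biUnion hfin fun P hP => Set.not_infinite.1 (by
      intro h7
      exact absurd h7 (by simpa using hcon P hP))).subset h6
  obtain ⟨m0, hm0, hm0P⟩ := hP.nonempty
  have hrel : ∀ i j, q i * Polynomial.C ((q j).eval ((2 : K) ^ m0)) =
      q j * Polynomial.C ((q i).eval ((2 : K) ^ m0)) := by
    intro i j
    rw [← sub_eq_zero]
    refine Polynomial.eq_zero_of_infinite_isRoot _ ?_
    refine Set.Infinite.mono ?_ (hP.image h2inj.injOn)
    rintro _ ⟨m, ⟨hm, hmP⟩, rfl⟩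
    have h8 : pt m = pt m0 := by
      rw [show pt m = P from hmP, show pt m0 = P from hm0P]
    simp only [pt, dif_pos (hgne m hm), dif_pos (hgne m0 hm0)] at h8
    rw [Projectivization.mk_eq_mk_iff'] at h8
    obtain ⟨c, hc⟩ := h8
    have hci : ∀ i, c * (q i).eval ((2 : K) ^ m0) = (q i).eval ((2 : K) ^ m) := fun i =>
      congrFun hc i
    show (q i * Polynomial.C ((q j).eval ((2 : K) ^ m0)) -
      q j * Polynomial.C ((q i).eval ((2 : K) ^ m0))).eval ((2 : K) ^ m) = 0
    rw [Polynomial.eval_sub, Polynomial.eval_mul, Polynomial.eval_mul, Polynomial.eval_C,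
      Polynomial.eval_C, ← hci i, ← hci j]
    ring
  obtain ⟨i0, hi0⟩ : ∃ i, (q i).eval ((2 : K) ^ m0) ≠ 0 := by
    by_contra h
    push Not at h
    exact hgne m0 hm0 (funext h)
  apply hab
  have e1 := congrArg (Polynomial.eval a) (hrel i1 i0)
  have e2 := congrArg (Polynomial.eval b) (hrel i2 i0)
  have e3 := congrArg (Polynomial.eval a) (hrel i2 i0)
  have e4 := congrArg (Polynomial.eval b) (hrel i1 i0)
  simp only [Polynomial.eval_mul, Polynomial.eval_C] at e1 e2 e3 e4
  have hne2 : (q i0).eval ((2 : K) ^ m0) * (q i0).eval ((2 : K) ^ m0) ≠ 0 := mul_ne_zero hi0 hi0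
  apply mul_right_cancel₀ hne2
  calc (q i1).eval a * (q i2).eval b * ((q i0).eval ((2 : K) ^ m0) * (q i0).eval ((2 : K) ^ m0))
      = ((q i1).eval a * (q i0).eval ((2 : K) ^ m0)) *
        ((q i2).eval b * (q i0).eval ((2 : K) ^ m0)) := by ring
    _ = ((q i0).eval a * (q i1).eval ((2 : K) ^ m0)) *
        ((q i0).eval b * (q i2).eval ((2 : K) ^ m0)) := by rw [e1, e2]
    _ = ((q i0).eval a * (q i2).eval ((2 : K) ^ m0)) *
        ((q i0).eval b * (q i1).eval ((2 : K) ^ m0)) := by ring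
    _ = ((q i2).eval a * (q i0).eval ((2 : K) ^ m0)) *
        ((q i1).eval b * (q i0).eval ((2 : K) ^ m0)) := by rw [e3, e4]
    _ = (q i2).eval a * (q i1).eval b *
        ((q i0).eval ((2 : K) ^ m0) * (q i0).eval ((2 : K) ^ m0)) := by ring

theorem cycInt_one : CycInt 1 1 := by
  refine ⟨1, 1, 1, one_pos, IsPrimitiveRoot.one, ?_, by simp⟩
  unfold Pool.Agent.Helper781.CycHouse.mean
  simp

/-- **Converse.** -/
theorem converse [NumberField k] [Algebra k ℂ] (FF : Finset (MvPolynomial (Fin (n + 1)) k))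
    (G : MvPolynomial (Fin (n + 1)) k) (N : ℕ)
    (L : Type) [Field L] [Algebra k L] (p : Fin (n + 1) → Polynomial L)
    (hN : ∀ i m, N ≤ m → (p i).coeff m = 0)
    (hF : ∀ F ∈ FF, MvPolynomial.aeval p F = 0)
    (hc : ∃ i j, p i * Polynomial.C ((p j).eval 1) ≠ p j * Polynomial.C ((p i).eval 1))
    (hG : MvPolynomial.aeval (fun i => (p i).eval 1) G ≠ 0) :
    (∃ u : Fin N → Fin (n + 1) → ℂ, (sparsePts FF G u 1 1 1).Infinite) ∧
    ∃ (K : Type) (_ : Field K) (_ : NumberField K) (_ : Algebra k K) (Γ : Subgroup Kˣ),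
      Γ.FG ∧ (shortPts FF G Γ N).Infinite := by
  classical
  obtain ⟨K, iK, iN, iAK, w, h1, h2, h3⟩ := Pool.Agent.TH409.SH.specialise k L p
    (FF : Set (MvPolynomial (Fin (n + 1)) k)) hF N hN hc G hG
  set q : Fin (n + 1) → Polynomial K := cur w (fun j => (j : ℕ)) with hq
  have hev : ∀ (M : Type) [Field M] [Algebra k M] (w : Fin N → Fin (n + 1) → M)
      (F : MvPolynomial (Fin (n + 1)) k) (t : M),
      (MvPolynomial.aeval (cur w (fun j => (j : ℕ))) F).eval t =
      MvPolynomial.aeval (fun i => (cur w (fun j => (j : ℕ)) i).eval t) F := by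
    intro M _ _ w F t
    exact MvPolynomial.comp_aeval_apply (R := k) (cur w (fun j => (j : ℕ)))
      ((Polynomial.aeval t : Polynomial M →ₐ[M] M).restrictScalars k) F
  have hval : ∀ (M : Type) [Field M] (w : Fin N → Fin (n + 1) → M) (i : Fin (n + 1)) (t : M),
      (cur w (fun j => (j : ℕ)) i).eval t = ∑ j : Fin N, w j i * t ^ (j : ℕ) := by
    intro M _ w i t
    unfold cur
    rw [Polynomial.eval_finsetSum]
    refine Finset.sum_congr rfl fun j _ => ?_
    simp
  obtain ⟨i1, i2, a, b, hab⟩ := Pool.Agent.TH409.SH.nonconst_of q h2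
  have hG0 : MvPolynomial.aeval q G ≠ 0 := by
    intro h
    apply h3
    have := hev K w G 1
    rw [← hq, h, Polynomial.eval_zero] at this
    exact this.symm
  refine ⟨?_, ?_⟩
  · -- complex points
    have halg : Algebra.IsAlgebraic k K := by
      have h4 : Algebra.IsAlgebraic ℚ K := inferInstance
      exact Algebra.IsAlgebraic.tower_top (K := ℚ) k
    let τ : K →ₐ[k] ℂ := IsAlgClosed.lift
    let w' : Fin N → Fin (n + 1) → ℂ := fun j i => τ (w j i)
    have hmap : ∀ i, (q i).map τ.toRingHom = cur w' (fun j => (j : ℕ)) i := by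
      intro i
      rw [hq]
      unfold cur
      rw [Polynomial.map_sum]
      refine Finset.sum_congr rfl fun j _ => ?_
      simp [w']
    have hmapF : ∀ F : MvPolynomial (Fin (n + 1)) k,
        (MvPolynomial.aeval q F).map τ.toRingHom =
          MvPolynomial.aeval (cur w' (fun j => (j : ℕ))) F := by
      intro F
      have h4 := MvPolynomial.comp_aeval_apply (R := k) q (Polynomial.mapAlgHom τ) F
      have h5 : (MvPolynomial.aeval q F).map τ.toRingHom =
          Polynomial.mapAlgHom τ (MvPolynomial.aeval q F) := rfl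
      rw [h5, h4]
      congr 2
      funext i
      exact hmap i
    have hinf := inf_pts (k := k) (cur w' (fun j => (j : ℕ))) G (by
      rw [← hmapF]
      exact (Polynomial.map_ne_zero_iff τ.toRingHom.injective).2 hG0) ⟨i1, i2, τ a, τ b, by
        rw [← hmap, ← hmap]
        have h4 : ∀ i t, ((q i).map τ.toRingHom).eval (τ t) = τ ((q i).eval t) := by
          intro i t
          have := Polynomial.eval_map_apply (p := q i) τ.toRingHom t
          exact this
        rw [h4, h4, h4, h4, ← map_mul, ← map_mul]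
        exact fun h => hab (τ.toRingHom.injective h)⟩
    refine ⟨w', hinf.mono ?_⟩
    rintro P ⟨m, h, hGm, rfl⟩
    have hpt : (fun i => (cur w' (fun j => (j : ℕ)) i).eval ((2 : ℂ) ^ m)) =
        ∑ j : Fin N, ((2 : ℂ) ^ m) ^ (j : ℕ) • w' j := by
      funext i
      rw [hval, Finset.sum_apply]
      refine Finset.sum_congr rfl fun j _ => ?_
      rw [Pi.smul_apply, smul_eq_mul, mul_comm]
    refine ⟨2, fun j => ((2 : ℂ) ^ m) ^ (j : ℕ), ?_, two_ne_zero, ?_, ?_, ?_, ?_, ?_, ?_⟩
    · rw [← hpt]; exact h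
    · exact (isBase_two le_rfl).1
    · exact (isBase_two le_rfl).2.1
    · intro j
      refine ⟨fun _ => ((m * (j : ℕ) : ℕ) : ℤ), fun _ => 1, fun _ => cycInt_one, ?_⟩
      rw [Finset.sum_const, Finset.card_univ, Fintype.card_fin, one_smul, mul_one, zpow_natCast,
        pow_mul]
    · intro F hFF
      rw [← hpt, ← hev, ← hmapF]
      have h4 : MvPolynomial.aeval q F = 0 := h1 F hFF
      rw [h4, Polynomial.map_zero, Polynomial.eval_zero]
    · rw [← hpt]; exact hGm
    · simp only [hpt]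
  · -- points over `K`
    have hinf := inf_pts (k := k) q G hG0 ⟨i1, i2, a, b, hab⟩
    let S : Finset Kˣ := insert (Units.mk0 2 two_ne_zero)
      ((Finset.univ : Finset (Fin N × Fin (n + 1))).image fun t =>
        if h : w t.1 t.2 = 0 then 1 else Units.mk0 (w t.1 t.2) h)
    refine ⟨K, iK, iN, iAK, Subgroup.closure (S : Set Kˣ), ⟨S, rfl⟩, hinf.mono ?_⟩
    rintro P ⟨m, h, hGm, rfl⟩
    refine ⟨_, h, fun i => ⟨fun j => w j i * ((2 : K) ^ m) ^ (j : ℕ), fun j => ?_, ?_⟩, ?_, hGm,
      rfl⟩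
    · by_cases h0 : w j i = 0
      · left
        show w j i * ((2 : K) ^ m) ^ (j : ℕ) = 0
        rw [h0, zero_mul]
      · right
        refine ⟨Units.mk0 (w j i) h0 * ((Units.mk0 2 two_ne_zero) ^ m) ^ (j : ℕ), ?_, by simp⟩
        refine Subgroup.mul_mem _ (Subgroup.subset_closure ?_) (Subgroup.pow_mem _
          (Subgroup.pow_mem _ (Subgroup.subset_closure (Finset.mem_insert_self _ _)) _) _)
        refine Finset.mem_insert_of_mem (Finset.mem_image.2 ⟨(j, i), Finset.mem_univ _, ?_⟩)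
        rw [dif_neg h0]
    · rw [hq]
      exact hval K w i _
    · intro F hFF
      rw [hq, ← hev]
      have h4 : MvPolynomial.aeval (cur w (fun j => (j : ℕ))) F = 0 := h1 F hFF
      rw [h4, Polynomial.eval_zero]

end conv

end Pool.Agent.J6H96.SS
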