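import Mathlib
import Pool.Agent.J6H96.SS.Main

set_option autoImplicit false

/-!
# Points with coordinates that are short sums: the theorem
-/

namespace Pool.Agent.J6H96.SS

open Filter Pool.Agent.H533R3.SL

variable {k : Type} [Field k] {n : ℕ}

theorem CurveCond.mul_left {FF : Finset (MvPolynomial (Fin (n + 1)) k)}
    {G : MvPolynomial (Fin (n + 1)) k} {L : Type} [Field L] [Algebra k L] {r : ℕ}
    (h : CurveCond FF G L r) (G' : MvPolynomial (Fin (n + 1)) k) : CurveCond FF (G' * G) L r := by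
  intro c l hF hne
  rw [map_mul, h c l hF hne, mul_zero]

theorem CurveCond.mul_right {FF : Finset (MvPolynomial (Fin (n + 1)) k)}
    {G : MvPolynomial (Fin (n + 1)) k} {L : Type} [Field L] [Algebra k L] {r : ℕ}
    (h : CurveCond FF G L r) (G' : MvPolynomial (Fin (n + 1)) k) : CurveCond FF (G * G') L r := by
  intro c l hF hne
  rw [map_mul, h c l hF hne, zero_mul]

/-- one form for all fields -/
theorem exists_form (FF : Finset (MvPolynomial (Fin (n + 1)) k))
    (hhom : ∀ F ∈ FF, ∃ e, F.IsHomogeneous e)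
    (hprime : (Ideal.span (FF : Set (MvPolynomial (Fin (n + 1)) k))).IsPrime)
    (hnu : ¬ Uniruled (Ideal.span (FF : Set (MvPolynomial (Fin (n + 1)) k)))) (r : ℕ) :
    ∃ G : MvPolynomial (Fin (n + 1)) k, (∃ e, G.IsHomogeneous e) ∧
      G ∉ Ideal.span (FF : Set (MvPolynomial (Fin (n + 1)) k)) ∧
      ∀ (L : Type) [Field L] [Algebra k L], CurveCond FF G L r := by
  classical
  obtain ⟨D, hD⟩ : ∃ D : ℕ, ∀ F ∈ FF, ∃ e, e ≤ D ∧ F.IsHomogeneous e := by
    choose! e he using hhom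
    exact ⟨FF.sup e, fun F hF => ⟨e F, Finset.le_sup (f := e) hF, he F hF⟩⟩
  obtain ⟨G, hGh, hGI, hG⟩ := exists_hyper (FF : Set (MvPolynomial (Fin (n + 1)) k)) hprime
    hnu (D + 1) (by omega) (fun F hF => by
      obtain ⟨e, he, hF'⟩ := hD F hF
      exact ⟨e, by omega, hF'⟩) r
  exact ⟨G, hGh, hGI, fun L _ _ c l hF hne => hG L c l hF hne⟩

/-- a nonconstant curve which is not in `G = 0`, with a good point at `1` -/
theorem normalise [CharZero k] (FF : Finset (MvPolynomial (Fin (n + 1)) k))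
    (G : MvPolynomial (Fin (n + 1)) k) (h : ¬ CurvesIn FF G) :
    ∃ (L : Type) (_ : Field L) (_ : Algebra k L) (p : Fin (n + 1) → Polynomial L),
      (∀ F ∈ FF, MvPolynomial.aeval p F = 0) ∧
      (∃ i j, p i * Polynomial.C ((p j).eval 1) ≠ p j * Polynomial.C ((p i).eval 1)) ∧
      MvPolynomial.aeval (fun i => (p i).eval 1) G ≠ 0 := by
  classical
  unfold CurvesIn at h
  push Not at h
  obtain ⟨L, iL, iA, p, hF, ⟨i, j, s, t, hst⟩, hG⟩ := h
  have hchar : CharZero L := charZero_of_injective_algebraMap (algebraMap k L).injective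
  have hp : ∃ i0, p i0 ≠ 0 := by
    by_contra h
    push Not at h
    apply hst
    rw [h i, h j]
  obtain ⟨i0, hi0⟩ := hp
  obtain ⟨t0, ht0⟩ : ∃ t0, (MvPolynomial.aeval p G * p i0).eval t0 ≠ 0 := by
    by_contra h
    push Not at h
    exact mul_ne_zero hG hi0 (Polynomial.funext fun x => by rw [h x, Polynomial.eval_zero])
  rw [Polynomial.eval_mul] at ht0
  have hGt : (MvPolynomial.aeval p G).eval t0 ≠ 0 := left_ne_zero_of_mul ht0
  have hpt : (p i0).eval t0 ≠ 0 := right_ne_zero_of_mul ht0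
  let ψ : Polynomial L →ₐ[L] Polynomial L :=
    Polynomial.aeval (Polynomial.X + Polynomial.C (t0 - 1))
  have hψ : ∀ (f : Polynomial L) (x : L), (ψ f).eval x = f.eval (x + (t0 - 1)) := by
    intro f x
    show (Polynomial.aeval (Polynomial.X + Polynomial.C (t0 - 1)) f).eval x = _
    rw [← Polynomial.comp_eq_aeval, Polynomial.eval_comp]
    simp
  have h1 : ∀ F : MvPolynomial (Fin (n + 1)) k, MvPolynomial.aeval (fun i => ψ (p i)) F =
      ψ (MvPolynomial.aeval p F) := by
    intro F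
    exact (MvPolynomial.comp_aeval_apply (R := k) p (ψ.restrictScalars k) F).symm
  have hev : ∀ (F : MvPolynomial (Fin (n + 1)) k) (t : L), (MvPolynomial.aeval p F).eval t =
      MvPolynomial.aeval (fun i => (p i).eval t) F := by
    intro F t
    exact MvPolynomial.comp_aeval_apply (R := k) p
      ((Polynomial.aeval t : Polynomial L →ₐ[L] L).restrictScalars k) F
  refine ⟨L, iL, iA, fun i => ψ (p i), ?_, ?_, ?_⟩
  · intro F hFF
    rw [h1, hF F hFF, map_zero]
  · by_contra hcon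
    push Not at hcon
    have h2 : ∀ i j x, (p i).eval x * (p j).eval t0 = (p j).eval x * (p i).eval t0 := by
      intro i j x
      have h3 := congrArg (Polynomial.eval (x - (t0 - 1))) (hcon i j)
      simp only [Polynomial.eval_mul, Polynomial.eval_C, hψ] at h3
      have e1 : x - (t0 - 1) + (t0 - 1) = x := by ring
      have e2 : 1 + (t0 - 1) = t0 := by ring
      rw [e1, e2] at h3
      exact h3
    apply hst
    have a1 := h2 i i0 s
    have a2 := h2 j i0 t
    have a3 := h2 j i0 s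
    have a4 := h2 i i0 t
    have hne : (p i0).eval t0 * (p i0).eval t0 ≠ 0 := mul_ne_zero hpt hpt
    apply mul_right_cancel₀ hne
    calc (p i).eval s * (p j).eval t * ((p i0).eval t0 * (p i0).eval t0)
        = ((p i).eval s * (p i0).eval t0) * ((p j).eval t * (p i0).eval t0) := by ring
      _ = ((p i0).eval s * (p i).eval t0) * ((p i0).eval t * (p j).eval t0) := by rw [a1, a2]
      _ = ((p i0).eval s * (p j).eval t0) * ((p i0).eval t * (p i).eval t0) := by ring
      _ = ((p j).eval s * (p i0).eval t0) * ((p i).eval t * (p i0).eval t0) := by rw [a3, a4]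
      _ = (p j).eval s * (p i).eval t * ((p i0).eval t0 * (p i0).eval t0) := by ring
  · have e2 : (1 : L) + (t0 - 1) = t0 := by ring
    simp only [hψ, e2]
    rw [← hev]
    exact hGt

theorem exists_deg {L : Type} [Field L] (p : Fin (n + 1) → Polynomial L) :
    ∃ N : ℕ, ∀ i m, N ≤ m → (p i).coeff m = 0 := by
  refine ⟨∑ i, (p i).natDegree + 1, fun i m hm => Polynomial.coeff_eq_zero_of_natDegree_lt ?_⟩
  have : (p i).natDegree ≤ ∑ i, (p i).natDegree :=
    Finset.single_le_sum (f := fun i => (p i).natDegree) (fun _ _ => Nat.zero_le _)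
      (Finset.mem_univ i)
  omega

/-- **The equivalences.** -/
theorem tfae [NumberField k] [Algebra k ℂ] (FF : Finset (MvPolynomial (Fin (n + 1)) k))
    (hhom : ∀ F ∈ FF, ∃ e, F.IsHomogeneous e) (G : MvPolynomial (Fin (n + 1)) k) :
    List.TFAE [
      CurvesIn FF G,
      ∀ (p r : ℕ) (B : ℝ) (D : ℕ) (u : Fin p → Fin (n + 1) → ℂ), (sparsePts FF G u D r B).Finite,
      ∀ (p : ℕ) (u : Fin p → Fin (n + 1) → ℂ), (sparsePts FF G u 1 1 1).Finite,
      ∀ (L : Type) [Field L] [Algebra k L] (Γ : Subgroup Lˣ), Γ.FG → ∀ r : ℕ,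
        (shortPts FF G Γ r).Finite,
      ∀ (L : Type) [Field L] [NumberField L] [Algebra k L] (Γ : Subgroup Lˣ), Γ.FG → ∀ r : ℕ,
        (shortPts FF G Γ r).Finite] := by
  have h31 : ¬ CurvesIn FF G → (∃ (p : ℕ) (u : Fin p → Fin (n + 1) → ℂ),
      (sparsePts FF G u 1 1 1).Infinite) ∧
      ∃ (K : Type) (_ : Field K) (_ : NumberField K) (_ : Algebra k K) (Γ : Subgroup Kˣ),
        Γ.FG ∧ ∃ r, (shortPts FF G Γ r).Infinite := by
    intro h
    obtain ⟨L, _, _, p, hF, hc, hG⟩ := normalise FF G h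
    obtain ⟨N, hN⟩ := exists_deg p
    obtain ⟨⟨u, hu⟩, K, i1, i2, i3, Γ, h1, h2⟩ := converse FF G N L p hN hF hc hG
    exact ⟨⟨N, u, hu⟩, K, i1, i2, i3, Γ, h1, N, h2⟩
  tfae_have 1 → 2 := by
    intro h p r B D u
    obtain ⟨N, hN⟩ := sparse_finite (k := k) n p r B
    exact hN FF hhom G (CurveCond.of_curvesIn h ℂ N) u D
  tfae_have 2 → 3 := fun h p u => h p 1 1 1 u
  tfae_have 3 → 1 := by
    intro h
    by_contra hcon
    obtain ⟨⟨p, u, hu⟩, -⟩ := h31 hcon
    exact hu (h p u)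
  tfae_have 1 → 4 := by
    intro h L _ _ Γ hΓ r
    have hchar : CharZero L := charZero_of_injective_algebraMap (algebraMap k L).injective
    exact short_finite FF hhom G L r (CurveCond.of_curvesIn h L _) Γ hΓ
  tfae_have 4 → 5 := fun h L _ _ _ Γ hΓ r => h L Γ hΓ r
  tfae_have 5 → 1 := by
    intro h
    by_contra hcon
    obtain ⟨-, K, i1, i2, i3, Γ, hΓ, r, hr⟩ := h31 hcon
    exact hr (h K Γ hΓ r)
  tfae_finish

/-- **One closed set.** -/
theorem one_set [NumberField k] [Algebra k ℂ] (FF : Finset (MvPolynomial (Fin (n + 1)) k))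
    (hhom : ∀ F ∈ FF, ∃ e, F.IsHomogeneous e)
    (hprime : (Ideal.span (FF : Set (MvPolynomial (Fin (n + 1)) k))).IsPrime)
    (hnu : ¬ Uniruled (Ideal.span (FF : Set (MvPolynomial (Fin (n + 1)) k))))
    (p r : ℕ) (B : ℝ) :
    ∃ G : MvPolynomial (Fin (n + 1)) k, (∃ e, G.IsHomogeneous e) ∧
      G ∉ Ideal.span (FF : Set (MvPolynomial (Fin (n + 1)) k)) ∧
      (∀ (D : ℕ) (u : Fin p → Fin (n + 1) → ℂ), (sparsePts FF G u D r B).Finite) ∧
      ∀ (L : Type) [Field L] [Algebra k L] (Γ : Subgroup Lˣ), Γ.FG →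
        (shortPts FF G Γ r).Finite := by
  obtain ⟨N, hN⟩ := sparse_finite (k := k) n p r B
  obtain ⟨G1, ⟨e1, h1⟩, h1I, h1c⟩ := exists_form FF hhom hprime hnu N
  obtain ⟨G2, ⟨e2, h2⟩, h2I, h2c⟩ := exists_form FF hhom hprime hnu ((n + 1) * r)
  refine ⟨G1 * G2, ⟨e1 + e2, h1.mul h2⟩, fun h => ?_, fun D u => ?_, fun L _ _ Γ hΓ => ?_⟩
  · rcases hprime.mem_or_mem h with h | h
    · exact h1I h
    · exact h2I h
  · exact hN FF hhom _ ((h1c ℂ).mul_right G2) u D
  · exact short_finite FF hhom _ L r ((h2c L).mul_left G1) Γ hΓ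

/-- **Converse for uniruled varieties.** -/
theorem uniruled_inf [NumberField k] [Algebra k ℂ] (FF : Finset (MvPolynomial (Fin (n + 1)) k))
    (hu : Uniruled (Ideal.span (FF : Set (MvPolynomial (Fin (n + 1)) k)))) :
    ∃ r : ℕ, ∀ G : MvPolynomial (Fin (n + 1)) k, (∃ e, G.IsHomogeneous e) →
      G ∉ Ideal.span (FF : Set (MvPolynomial (Fin (n + 1)) k)) →
      (∃ u : Fin r → Fin (n + 1) → ℂ, (sparsePts FF G u 1 1 1).Infinite) ∧
      ∃ (K : Type) (_ : Field K) (_ : NumberField K) (_ : Algebra k K) (Γ : Subgroup Kˣ),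
        Γ.FG ∧ (shortPts FF G Γ r).Infinite := by
  obtain ⟨L, iL, iA, p, hp1, hp2, hp3⟩ := hu
  obtain ⟨N, hN⟩ := exists_deg p
  refine ⟨N, fun G hG hGI => ?_⟩
  exact converse FF G N L p hN (fun F hF => hp1 F (Ideal.subset_span hF)) hp3 (hp2 G hG hGI)

end Pool.Agent.J6H96.SS
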